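import Pool.Agent.Helper18.KL.Defs
import Pool.Agent.Helper48.KS.PowGiven

/-! Project KS: weighted counts in windows with a given set of primes. -/

set_option autoImplicit false
open scoped Classical
open Finset

namespace Pool.Agent.Helper18.KL

open Pool.Agent.Helper16.KS Pool.Agent.Helper48.KS

theorem sig_mul_radg (O : Finset ℕ) {n : ℕ} (hn : n ≠ 0) : sig O n * radg O n = n := by
  have h1 : radg O n = ∏ p ∈ n.primeFactors, if p ∈ O then 1 else p := by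
    unfold radg
    rw [Finset.prod_ite, Finset.prod_const_one, one_mul]
    refine Finset.prod_congr ?_ fun _ _ => rfl
    ext p
    simp [Finset.mem_sdiff]
  rw [h1]
  unfold sig
  rw [← Finset.prod_mul_distrib]
  conv_rhs => rw [← Nat.prod_factorization_pow_eq_self hn]
  rw [Nat.prod_factorization_eq_prod_primeFactors]
  refine Finset.prod_congr rfl fun p hp => ?_
  have hv : 1 ≤ n.factorization p :=
    (Nat.prime_of_mem_primeFactors hp).factorization_pos_of_dvd hn (Nat.dvd_of_mem_primeFactors hp)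
  split_ifs with h
  · rw [mul_one]
  · rw [← pow_succ]
    congr 1
    omega

theorem sig_pos (O : Finset ℕ) {n : ℕ} (hn : n ≠ 0) : 1 ≤ sig O n := by
  have h := sig_mul_radg O hn
  rcases Nat.eq_zero_or_pos (sig O n) with h0 | h0
  · rw [h0, zero_mul] at h; omega
  · exact h0

theorem sig_eq (O : Finset ℕ) {n : ℕ} (hn : n ≠ 0) : (sig O n : ℝ) = (n : ℝ) / radg O n := by
  have h := sig_mul_radg O hn
  have h0 : (radg O n : ℝ) ≠ 0 := by exact_mod_cast (radg_pos O n).ne'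
  rw [eq_div_iff h0]
  exact_mod_cast h

theorem sig_eq2 (O : Finset ℕ) {n : ℕ} (hn : n ≠ 0) :
    (sig O n : ℝ) = gpart O n * ((cpart O n : ℝ) / (rad (cpart O n) : ℝ)) := by
  rw [sig_eq O hn, ratio_eq O hn]
  congr 2
  unfold rad
  push_cast
  rfl

theorem hh_le (S : Sys) : S.hh ≤ 1 / 2 - S.del ∧ 0 < S.hh ∧ S.hh - 1 + S.eta ≤ 0 ∧ S.hh - 1 / 2 + S.eta ≤ 0 := by
  have h1 := S.d_pos
  have h2 := S.d_le
  have h3 := S.c_le
  have h4 := S.eta_le
  have h5 := S.del_le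
  have hc : 0 < S.c := by nlinarith
  have heta : 0 < S.eta := by nlinarith
  have hep : S.ep ≤ S.d := by
    unfold Sys.ep
    have : S.c * S.eta ≤ 1 := by nlinarith
    nlinarith
  have hep0 : 0 < S.ep := by unfold Sys.ep; positivity
  have htau : S.tau ≤ S.s := by
    unfold Sys.tau Sys.s
    linarith
  have htau0 : 0 < S.tau := by unfold Sys.tau; positivity
  have hs : 0 < S.s := by unfold Sys.s; positivity
  have hs1 : S.s ≤ 1 / 100 := by unfold Sys.s; linarith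
  unfold Sys.hh
  refine ⟨by linarith, by linarith, by linarith, by linarith⟩

theorem eta_pos (S : Sys) : 0 < S.eta := by
  have h1 := S.d_pos
  have h2 := S.d_le
  have h3 := S.c_le
  nlinarith

theorem one_le_ratio' {k : ℕ} (hk : k ≠ 0) : 1 ≤ (k : ℝ) / (rad k : ℝ) := by
  have h0 : 0 < rad k := Finset.prod_pos fun p hp => (Nat.prime_of_mem_primeFactors hp).pos
  rw [one_le_div (by exact_mod_cast h0)]
  exact_mod_cast Nat.le_of_dvd (Nat.pos_of_ne_zero hk) (Nat.prod_primeFactors_dvd k)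

/-- windows of any length -/
theorem winC (S : Sys) (e : ℝ) (he0 : 0 < e) (he : e ≤ S.eta) : ∃ C : ℝ, 0 < C ∧ ∀ (x y : ℕ) (B : ℝ),
    1 ≤ x → y ≤ x → 1 ≤ B →
    ∑ k ∈ (Ico x (x + y)).filter (fun k : ℕ => B ≤ (k : ℝ) / (rad k : ℝ)), ((k : ℝ) / (rad k : ℝ)) ^ S.hh ≤
      C * (y + (x : ℝ) ^ (1 / 2 - e)) * B ^ (-e) := by
  obtain ⟨C, h⟩ := S.pow
  refine ⟨2 * (|C| + 1), by positivity, ?_⟩
  intro x y B hx hy hB
  have hx1 : (1 : ℝ) ≤ x := by exact_mod_cast hx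
  have hx0 : (0 : ℝ) < x := by linarith
  set y' : ℕ := max y ⌈(x : ℝ) ^ (1 / 2 - e)⌉₊ with hy'
  have heta := eta_pos S
  have hdel : S.del ≤ 3 / 50 := S.del_le
  have heta2 : S.eta ≤ 3 / 50 := S.eta_le.trans hdel
  have hxe : (1 : ℝ) ≤ (x : ℝ) ^ (1 / 2 - e) := Real.one_le_rpow hx1 (by linarith)
  have hxe2 : (x : ℝ) ^ (1 / 2 - e) ≤ x := by
    calc (x : ℝ) ^ (1 / 2 - e) ≤ (x : ℝ) ^ (1 : ℝ) := Real.rpow_le_rpow_of_exponent_le hx1 (by linarith)
      _ = x := Real.rpow_one _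
  have h1 : (x : ℝ) ^ (1 / 2 - S.eta) ≤ y' := by
    calc (x : ℝ) ^ (1 / 2 - S.eta) ≤ (x : ℝ) ^ (1 / 2 - e) := Real.rpow_le_rpow_of_exponent_le hx1 (by linarith)
      _ ≤ (⌈(x : ℝ) ^ (1 / 2 - e)⌉₊ : ℝ) := Nat.le_ceil _
      _ ≤ y' := by exact_mod_cast le_max_right _ _
  have h2 : y' ≤ x := by
    refine max_le hy ?_
    exact Nat.ceil_le.2 hxe2
  have h3 := h x y' B hx h1 h2 hB
  have hyy : y ≤ y' := le_max_left _ _
  have h4 : ∑ k ∈ (Ico x (x + y)).filter (fun k : ℕ => B ≤ (k : ℝ) / (rad k : ℝ)), ((k : ℝ) / (rad k : ℝ)) ^ S.hh ≤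
      ∑ k ∈ (Ico x (x + y')).filter (fun k : ℕ => B ≤ (k : ℝ) / (rad k : ℝ)), ((k : ℝ) / (rad k : ℝ)) ^ (1 / 2 - S.del) := by
    refine (Finset.sum_le_sum_of_subset_of_nonneg ?_ fun k _ _ => by positivity).trans
      (Finset.sum_le_sum fun k hk => ?_)
    · intro k hk
      rw [Finset.mem_filter, Finset.mem_Ico] at hk ⊢
      exact ⟨⟨hk.1.1, by omega⟩, hk.2⟩
    · rw [Finset.mem_filter, Finset.mem_Ico] at hk
      exact Real.rpow_le_rpow_of_exponent_le (one_le_ratio' (by omega)) (hh_le S).1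
  refine h4.trans (h3.trans ?_)
  have h5 : (y' : ℝ) ≤ 2 * (y + (x : ℝ) ^ (1 / 2 - e)) := by
    have h6 : (y' : ℝ) ≤ y + ⌈(x : ℝ) ^ (1 / 2 - e)⌉₊ := by
      have : y' ≤ y + ⌈(x : ℝ) ^ (1 / 2 - e)⌉₊ := by
        rw [hy']; omega
      exact_mod_cast this
    have h7 : (⌈(x : ℝ) ^ (1 / 2 - e)⌉₊ : ℝ) ≤ (x : ℝ) ^ (1 / 2 - e) + 1 := (Nat.ceil_lt_add_one (by positivity)).le
    have : (0 : ℝ) ≤ y := Nat.cast_nonneg y
    linarith
  have h8 : B ^ (-S.eta) ≤ B ^ (-e) := Real.rpow_le_rpow_of_exponent_le hB (by linarith)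
  have hBe : 0 < B ^ (-S.eta) := by positivity
  have hy0 : (0 : ℝ) ≤ y' := Nat.cast_nonneg _
  calc C * y' * B ^ (-S.eta) ≤ (|C| + 1) * y' * B ^ (-S.eta) := by
        refine mul_le_mul_of_nonneg_right (mul_le_mul_of_nonneg_right ?_ hy0) hBe.le
        linarith [le_abs_self C]
    _ ≤ (|C| + 1) * (2 * (y + (x : ℝ) ^ (1 / 2 - e))) * B ^ (-e) := by
        refine mul_le_mul (mul_le_mul_of_nonneg_left h5 (by positivity)) h8 hBe.le (by positivity)
    _ = 2 * (|C| + 1) * (y + (x : ℝ) ^ (1 / 2 - e)) * B ^ (-e) := by ring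

/-- multiples of `b` in a window -/
theorem ceil_div_facts (x y b : ℕ) (hb : 1 ≤ b) (hx : 1 ≤ x) (hy : y ≤ x) :
    1 ≤ (x + b - 1) / b ∧ (x + y + b - 1) / b - (x + b - 1) / b ≤ (x + b - 1) / b ∧
    (((x + y + b - 1) / b - (x + b - 1) / b : ℕ) : ℝ) ≤ (y : ℝ) / b + 1 ∧
    (((x + b - 1) / b : ℕ) : ℝ) ≤ (x : ℝ) / b + 1 ∧
    ∀ k : ℕ, (x ≤ b * k ∧ b * k < x + y) ↔ k ∈ Ico ((x + b - 1) / b) ((x + b - 1) / b +
      ((x + y + b - 1) / b - (x + b - 1) / b)) := by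
  have hb0 : (0 : ℝ) < b := by exact_mod_cast hb
  set u := (x + b - 1) / b with hu
  set v := (x + y + b - 1) / b with hv
  have hu1 : b * u ≤ x + b - 1 := Nat.mul_div_le _ _
  have hu2 : x + b - 1 < b * u + b := by
    have := Nat.lt_mul_div_succ (x + b - 1) (show 0 < b by omega)
    rw [← hu] at this
    linarith
  have hv1 : b * v ≤ x + y + b - 1 := Nat.mul_div_le _ _
  have hv2 : x + y + b - 1 < b * v + b := by
    have := Nat.lt_mul_div_succ (x + y + b - 1) (show 0 < b by omega)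
    rw [← hv] at this
    linarith
  have huv : u ≤ v := Nat.div_le_div_right (by omega)
  have h1 : 1 ≤ u := by
    rw [hu]
    exact (Nat.one_le_div_iff (by omega)).2 (by omega)
  refine ⟨h1, ?_, ?_, ?_, ?_⟩
  · -- v ≤ 2 u
    have h2 : x ≤ b * u := by omega
    have h3 : b * v < b * (2 * u + 1) := by
      have e1 : b * (2 * u + 1) = 2 * (b * u) + b := by ring
      rw [e1]
      omega
    have h4 : v < 2 * u + 1 := lt_of_mul_lt_mul_left h3 (Nat.zero_le b)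
    omega
  · rw [Nat.cast_sub huv]
    have e1 : (b : ℝ) * v ≤ x + y + b - 1 := by
      have : ((b * v : ℕ) : ℝ) ≤ ((x + y + b - 1 : ℕ) : ℝ) := by exact_mod_cast hv1
      rw [Nat.cast_sub (by omega)] at this
      push_cast at this
      exact this
    have e2 : (x : ℝ) ≤ b * u := by
      have : x ≤ b * u := by omega
      exact_mod_cast this
    have e3 : (v : ℝ) ≤ (x + y + b - 1) / b := by rw [le_div_iff₀ hb0]; linarith
    have e4 : (x : ℝ) / b ≤ u := by rw [div_le_iff₀ hb0]; linarith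
    have e5 : ((x : ℝ) + y + b - 1) / b = x / b + y / b + 1 - 1 / b := by field_simp
    have e6 : (0 : ℝ) < 1 / b := by positivity
    linarith
  · have e1 : (b : ℝ) * u ≤ x + b - 1 := by
      have : ((b * u : ℕ) : ℝ) ≤ ((x + b - 1 : ℕ) : ℝ) := by exact_mod_cast hu1
      rw [Nat.cast_sub (by omega)] at this
      push_cast at this
      exact this
    have e3 : (u : ℝ) ≤ (x + b - 1) / b := by rw [le_div_iff₀ hb0]; linarith
    have e5 : ((x : ℝ) + b - 1) / b = x / b + 1 - 1 / b := by field_simp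
    have e6 : (0 : ℝ) < 1 / b := by positivity
    linarith
  · intro k
    rw [Finset.mem_Ico]
    have e7 : u + (v - u) = v := by omega
    rw [e7]
    constructor
    · rintro ⟨h2, h3⟩
      constructor
      · -- u ≤ k
        by_contra hlt
        push Not at hlt
        have h4 : b * (k + 1) ≤ b * u := Nat.mul_le_mul_left b hlt
        rw [Nat.mul_add, mul_one] at h4
        omega
      · by_contra hge
        push Not at hge
        have h4 : b * v ≤ b * k := Nat.mul_le_mul_left b hge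
        omega
    · rintro ⟨h2, h3⟩
      constructor
      · have h4 : b * u ≤ b * k := Nat.mul_le_mul_left b h2
        omega
      · have h4 : b * (k + 1) ≤ b * v := Nat.mul_le_mul_left b h3
        rw [Nat.mul_add, mul_one] at h4
        omega

theorem dvd_gpart {O : Finset ℕ} {a n : ℕ} (hn : n ≠ 0) (ha : a.primeFactors ⊆ O) (han : a ∣ n) :
    a ∣ gpart O n := by
  have h0 : a ≠ 0 := by rintro rfl; exact hn (Nat.eq_zero_of_zero_dvd han)
  have h1 : a ∣ gpart O n * cpart O n := by rw [gpart_mul_cpart O hn]; exact han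
  refine Nat.Coprime.dvd_of_dvd_mul_right ?_ h1
  rw [Nat.coprime_iff_gcd_eq_one, ← Nat.coprime_iff_gcd_eq_one]
  refine Nat.Coprime.symm ?_
  rw [Nat.Coprime.eq_1]
  by_contra hne
  obtain ⟨p, hp, hpd⟩ := Nat.exists_prime_and_dvd hne
  have hp1 : p ∣ cpart O n := hpd.trans (Nat.gcd_dvd_left _ _)
  have hp2 : p ∣ a := hpd.trans (Nat.gcd_dvd_right _ _)
  have hm1 : p ∈ (cpart O n).primeFactors := Nat.mem_primeFactors.2 ⟨hp, hp1, (cpart_pos O n).ne'⟩
  rw [primeFactors_cpart, Finset.mem_sdiff] at hm1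
  exact hm1.2 (ha (Nat.mem_primeFactors.2 ⟨hp, hp2, h0⟩))

/-- general form -/
theorem powG (S : Sys) (e : ℝ) (he0 : 0 < e) (he : e ≤ S.eta) : ∃ C : ℝ, 0 < C ∧
    ∀ (x y : ℕ) (O : Finset ℕ) (a : ℕ) (B : ℝ), 1 ≤ x → y ≤ x → 1 ≤ a → a.primeFactors ⊆ O → 1 ≤ B →
    ∑ n ∈ (Ico x (x + y)).filter (fun n => a ∣ n ∧ B ≤ (sig O n : ℝ)), (sig O n : ℝ) ^ S.hh ≤
      ∑ b ∈ (Icc 1 (2 * x)).filter (fun b => b.primeFactors ⊆ O ∧ a ∣ b),
        C * ((y * (b : ℝ) ^ (S.hh - 1) + (x : ℝ) ^ (1 / 2 - e) * (b : ℝ) ^ (S.hh - 1 / 2 + e)) *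
          (max 1 (B / b)) ^ (-e)) := by
  obtain ⟨C, hC, h⟩ := winC S e he0 he
  refine ⟨8 * C, by positivity, ?_⟩
  intro x y O a B hx hy ha haO hB
  have hxr : (1 : ℝ) ≤ x := by exact_mod_cast hx
  have hx0 : (0 : ℝ) < x := by linarith
  have hhh := hh_le S
  have heta2 : S.eta ≤ 3 / 50 := S.eta_le.trans S.del_le
  rw [← Finset.sum_fiberwise_of_maps_to (s := (Ico x (x + y)).filter (fun n => a ∣ n ∧ B ≤ (sig O n : ℝ)))
    (t := (Icc 1 (2 * x)).filter (fun b => b.primeFactors ⊆ O ∧ a ∣ b)) (g := fun n => gpart O n)]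
  · refine Finset.sum_le_sum fun b hb => ?_
    rw [Finset.mem_filter, Finset.mem_Icc] at hb
    have hb1 : 1 ≤ b := hb.1.1
    have hbr : (1 : ℝ) ≤ b := by exact_mod_cast hb1
    have hb0 : (0 : ℝ) < b := by linarith
    have hb2x : (b : ℝ) ≤ 2 * x := by exact_mod_cast hb.1.2
    obtain ⟨f1, f2, f3, f4, f5⟩ := ceil_div_facts x y b hb1 hx hy
    set x' := (x + b - 1) / b with hx'
    set y' := (x + y + b - 1) / b - (x + b - 1) / b with hy'
    set B' : ℝ := max 1 (B / b) with hB'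
    have hB'1 : 1 ≤ B' := le_max_left _ _
    have hw := h x' y' B' f1 f2 hB'1
    -- the fibre
    have hfib : ∑ n ∈ ((Ico x (x + y)).filter (fun n => a ∣ n ∧ B ≤ (sig O n : ℝ))).filter
        (fun n => gpart O n = b), (sig O n : ℝ) ^ S.hh ≤
        (b : ℝ) ^ S.hh * ∑ k ∈ (Ico x' (x' + y')).filter (fun k : ℕ => B' ≤ (k : ℝ) / (rad k : ℝ)),
          ((k : ℝ) / (rad k : ℝ)) ^ S.hh := by
      rw [Finset.mul_sum]
      set F := ((Ico x (x + y)).filter (fun n => a ∣ n ∧ B ≤ (sig O n : ℝ))).filter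
        (fun n => gpart O n = b) with hF
      have hFm : ∀ n ∈ F, n ≠ 0 ∧ b * cpart O n = n ∧ x ≤ n ∧ n < x + y ∧ B ≤ (sig O n : ℝ) ∧ gpart O n = b := by
        intro n hn
        rw [hF, Finset.mem_filter, Finset.mem_filter, Finset.mem_Ico] at hn
        have hn0 : n ≠ 0 := by omega
        refine ⟨hn0, ?_, hn.1.1.1, hn.1.1.2, hn.1.2.2, hn.2⟩
        rw [← hn.2]; exact gpart_mul_cpart O hn0
      have h1 : ∑ n ∈ F, (sig O n : ℝ) ^ S.hh = ∑ n ∈ F, (b : ℝ) ^ S.hh * ((cpart O n : ℝ) / (rad (cpart O n) : ℝ)) ^ S.hh := by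
        refine Finset.sum_congr rfl fun n hn => ?_
        have := hFm n hn
        rw [sig_eq2 O this.1, this.2.2.2.2.2, Real.mul_rpow hb0.le (by positivity)]
      have hinj : Set.InjOn (fun n => cpart O n) (F : Set ℕ) := by
        intro n hn n' hn' hnn
        have e1 := hFm n hn
        have e2 := hFm n' hn'
        simp only at hnn
        rw [← e1.2.1, ← e2.2.1, hnn]
      have h2 : ∑ n ∈ F, (b : ℝ) ^ S.hh * ((cpart O n : ℝ) / (rad (cpart O n) : ℝ)) ^ S.hh =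
          ∑ k ∈ F.image (fun n => cpart O n), (b : ℝ) ^ S.hh * ((k : ℝ) / (rad k : ℝ)) ^ S.hh := by
        rw [Finset.sum_image hinj]
      rw [h1, h2]
      refine Finset.sum_le_sum_of_subset_of_nonneg ?_ fun k _ _ => by positivity
      intro k hk
      rw [Finset.mem_image] at hk
      obtain ⟨n, hn, rfl⟩ := hk
      have e1 := hFm n hn
      rw [Finset.mem_filter]
      constructor
      · rw [← f5, e1.2.1]
        exact ⟨e1.2.2.1, e1.2.2.2.1⟩
      · have h3 := e1.2.2.2.2.1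
        rw [sig_eq2 O e1.1, e1.2.2.2.2.2] at h3
        refine max_le (one_le_ratio' (cpart_pos O n).ne') ?_
        rw [div_le_iff₀ hb0]
        linarith
    refine hfib.trans ((mul_le_mul_of_nonneg_left hw (by positivity)).trans ?_)
    have hBe : 0 < B' ^ (-e) := by positivity
    -- sizes
    have hxb : (1 : ℝ) / 2 ≤ (x : ℝ) / b := by rw [le_div_iff₀ hb0]; linarith
    have hxb0 : (0 : ℝ) < (x : ℝ) / b := by positivity
    have h3 : (x' : ℝ) ≤ 3 * ((x : ℝ) / b) := by linarith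
    have h4 : (x' : ℝ) ^ (1 / 2 - e) ≤ 3 * ((x : ℝ) / b) ^ (1 / 2 - e) := by
      calc (x' : ℝ) ^ (1 / 2 - e) ≤ (3 * ((x : ℝ) / b)) ^ (1 / 2 - e) :=
            Real.rpow_le_rpow (Nat.cast_nonneg _) h3 (by linarith)
        _ = 3 ^ (1 / 2 - e) * ((x : ℝ) / b) ^ (1 / 2 - e) := Real.mul_rpow (by norm_num) hxb0.le
        _ ≤ 3 * ((x : ℝ) / b) ^ (1 / 2 - e) := by
          refine mul_le_mul_of_nonneg_right ?_ (by positivity)
          calc (3 : ℝ) ^ (1 / 2 - e) ≤ 3 ^ (1 : ℝ) := Real.rpow_le_rpow_of_exponent_le (by norm_num) (by linarith)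
            _ = 3 := Real.rpow_one _
    have h5 : (1 : ℝ) ≤ 2 * ((x : ℝ) / b) ^ (1 / 2 - e) := by
      have h6 : (1 / 2 : ℝ) ^ (1 / 2 - e) ≤ ((x : ℝ) / b) ^ (1 / 2 - e) :=
        Real.rpow_le_rpow (by norm_num) hxb (by linarith)
      have h7 : (1 / 2 : ℝ) ≤ (1 / 2 : ℝ) ^ (1 / 2 - e) := by
        calc (1 / 2 : ℝ) = (1 / 2 : ℝ) ^ (1 : ℝ) := (Real.rpow_one _).symm
          _ ≤ (1 / 2 : ℝ) ^ (1 / 2 - e) :=
            Real.rpow_le_rpow_of_exponent_ge (by norm_num) (by norm_num) (by linarith)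
      linarith
    have h8 : (y' : ℝ) + (x' : ℝ) ^ (1 / 2 - e) ≤ 8 * ((y : ℝ) / b + ((x : ℝ) / b) ^ (1 / 2 - e)) := by
      have : 0 ≤ (y : ℝ) / b := by positivity
      have : 0 ≤ ((x : ℝ) / b) ^ (1 / 2 - e) := by positivity
      linarith
    have h9 : (b : ℝ) ^ S.hh * ((y : ℝ) / b + ((x : ℝ) / b) ^ (1 / 2 - e)) =
        y * (b : ℝ) ^ (S.hh - 1) + (x : ℝ) ^ (1 / 2 - e) * (b : ℝ) ^ (S.hh - 1 / 2 + e) := by
      rw [Real.div_rpow hx0.le hb0.le, Real.rpow_sub hb0 S.hh 1, Real.rpow_one]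
      have e1 : (b : ℝ) ^ (S.hh - 1 / 2 + e) = (b : ℝ) ^ S.hh / (b : ℝ) ^ (1 / 2 - e) := by
        rw [← Real.rpow_sub hb0]; congr 1; ring
      rw [e1]
      ring
    calc (b : ℝ) ^ S.hh * (C * ((y' : ℝ) + (x' : ℝ) ^ (1 / 2 - e)) * B' ^ (-e))
        ≤ (b : ℝ) ^ S.hh * (C * (8 * ((y : ℝ) / b + ((x : ℝ) / b) ^ (1 / 2 - e))) * B' ^ (-e)) := by
          refine mul_le_mul_of_nonneg_left ?_ (by positivity)
          exact mul_le_mul_of_nonneg_right (mul_le_mul_of_nonneg_left h8 hC.le) hBe.le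
      _ = 8 * C * (((b : ℝ) ^ S.hh * ((y : ℝ) / b + ((x : ℝ) / b) ^ (1 / 2 - e))) * B' ^ (-e)) := by ring
      _ = 8 * C * ((y * (b : ℝ) ^ (S.hh - 1) + (x : ℝ) ^ (1 / 2 - e) * (b : ℝ) ^ (S.hh - 1 / 2 + e)) *
          B' ^ (-e)) := by rw [h9]
  · intro n hn
    rw [Finset.mem_filter, Finset.mem_Ico] at hn
    have hn0 : n ≠ 0 := by omega
    rw [Finset.mem_filter, Finset.mem_Icc]
    have h1 := gpart_pos O n
    have h2 : gpart O n ≤ n := by
      conv_rhs => rw [← gpart_mul_cpart O hn0]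
      exact Nat.le_mul_of_pos_right _ (cpart_pos O n)
    refine ⟨⟨h1, by omega⟩, ?_, dvd_gpart hn0 haO hn.2.1⟩
    rw [primeFactors_gpart]
    exact Finset.inter_subset_right

theorem card_le_Ng (O : Finset ℕ) (a x : ℕ) :
    ((Icc 1 (2 * x)).filter (fun b => b.primeFactors ⊆ O ∧ a ∣ b)).card ≤ Ng O (2 * x) := by
  unfold Ng
  refine Finset.card_le_card ?_
  intro b hb
  rw [Finset.mem_filter] at hb ⊢
  exact ⟨hb.1, hb.2.1⟩

theorem powA : PowA := by
  intro S e he0 he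
  obtain ⟨C, hC, h⟩ := powG S e he0 he
  refine ⟨C, hC, ?_⟩
  intro x y P0 O a hx hy hP0 hO ha haO
  have hhh := hh_le S
  have hx0 : (0 : ℝ) < x := by exact_mod_cast hx
  have ha0 : (0 : ℝ) < a := by exact_mod_cast ha
  have h1 := h x y O a 1 hx hy ha haO le_rfl
  have h2 : (Ico x (x + y)).filter (fun n => a ∣ n) = (Ico x (x + y)).filter (fun n => a ∣ n ∧ (1 : ℝ) ≤ (sig O n : ℝ)) := by
    refine Finset.filter_congr fun n hn => ?_
    rw [Finset.mem_Ico] at hn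
    have : (1 : ℝ) ≤ (sig O n : ℝ) := by exact_mod_cast sig_pos O (by omega : n ≠ 0)
    simp [this]
  rw [h2]
  refine h1.trans ?_
  set E : ℝ := y * (a : ℝ) ^ (S.hh - 1) + (x : ℝ) ^ (1 / 2 - e) * (a : ℝ) ^ (S.hh - 1 / 2 + e) with hE
  have hE0 : 0 ≤ E := by positivity
  have h3 : ∀ b ∈ (Icc 1 (2 * x)).filter (fun b => b.primeFactors ⊆ O ∧ a ∣ b),
      C * ((y * (b : ℝ) ^ (S.hh - 1) + (x : ℝ) ^ (1 / 2 - e) * (b : ℝ) ^ (S.hh - 1 / 2 + e)) *
          (max 1 (1 / (b : ℝ))) ^ (-e)) ≤ C * E := by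
    intro b hb
    rw [Finset.mem_filter, Finset.mem_Icc] at hb
    have hb1 : (1 : ℝ) ≤ b := by exact_mod_cast hb.1.1
    have hab : (a : ℝ) ≤ b := by exact_mod_cast Nat.le_of_dvd (by omega) hb.2.2
    have h4 : max 1 (1 / (b : ℝ)) = 1 := by
      rw [max_eq_left]
      rw [div_le_one (by linarith)]; exact hb1
    rw [h4, Real.one_rpow, mul_one]
    refine mul_le_mul_of_nonneg_left ?_ hC.le
    rw [hE]
    refine add_le_add ?_ ?_
    · refine mul_le_mul_of_nonneg_left ?_ (Nat.cast_nonneg _)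
      exact Real.rpow_le_rpow_of_nonpos ha0 hab (by linarith [hhh.2.2.1, eta_pos S])
    · refine mul_le_mul_of_nonneg_left ?_ (by positivity)
      exact Real.rpow_le_rpow_of_nonpos ha0 hab (by linarith [hhh.2.2.2])
  refine (Finset.sum_le_sum h3).trans ?_
  rw [Finset.sum_const, nsmul_eq_mul]
  have h5 : ((((Icc 1 (2 * x)).filter (fun b => b.primeFactors ⊆ O ∧ a ∣ b)).card : ℕ) : ℝ) ≤
      2 ^ (O.card + Nat.log P0 (2 * x)) := by
    have := (card_le_Ng O a x).trans (Ng_le P0 hP0 O hO (2 * x))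
    exact_mod_cast this
  calc ((((Icc 1 (2 * x)).filter (fun b => b.primeFactors ⊆ O ∧ a ∣ b)).card : ℕ) : ℝ) * (C * E)
      ≤ 2 ^ (O.card + Nat.log P0 (2 * x)) * (C * E) := mul_le_mul_of_nonneg_right h5 (by positivity)
    _ = C * 2 ^ (O.card + Nat.log P0 (2 * x)) * E := by ring

theorem powB : PowB := by
  intro S e he0 he
  obtain ⟨C, hC, h⟩ := powG S e he0 he
  refine ⟨C, hC, ?_⟩
  intro x y P0 O B hx hy hP0 hO hB
  have hhh := hh_le S
  have hx0 : (0 : ℝ) < x := by exact_mod_cast hx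
  have hB0 : 0 < B := by linarith
  have h1 := h x y O 1 B hx hy le_rfl (by simp) hB
  have h2 : (Ico x (x + y)).filter (fun n => B ≤ (sig O n : ℝ)) =
      (Ico x (x + y)).filter (fun n => 1 ∣ n ∧ B ≤ (sig O n : ℝ)) := by
    refine Finset.filter_congr fun n _ => ?_
    simp
  rw [h2]
  refine h1.trans ?_
  set E : ℝ := y * B ^ (-e) + (x : ℝ) ^ (1 / 2 - e) with hE
  have hE0 : 0 ≤ E := by positivity
  have h3 : ∀ b ∈ (Icc 1 (2 * x)).filter (fun b => b.primeFactors ⊆ O ∧ 1 ∣ b),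
      C * ((y * (b : ℝ) ^ (S.hh - 1) + (x : ℝ) ^ (1 / 2 - e) * (b : ℝ) ^ (S.hh - 1 / 2 + e)) *
          (max 1 (B / (b : ℝ))) ^ (-e)) ≤ C * E := by
    intro b hb
    rw [Finset.mem_filter, Finset.mem_Icc] at hb
    have hb1 : (1 : ℝ) ≤ b := by exact_mod_cast hb.1.1
    have hb0 : (0 : ℝ) < b := by linarith
    refine mul_le_mul_of_nonneg_left ?_ hC.le
    have hM1 : (1 : ℝ) ≤ max 1 (B / (b : ℝ)) := le_max_left _ _
    have hMe : (max 1 (B / (b : ℝ))) ^ (-e) ≤ 1 := Real.rpow_le_one_of_one_le_of_nonpos hM1 (by linarith)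
    rw [hE, add_mul]
    refine add_le_add ?_ ?_
    · rw [mul_assoc]
      refine mul_le_mul_of_nonneg_left ?_ (Nat.cast_nonneg _)
      rcases le_or_gt B b with hBb | hBb
      · calc (b : ℝ) ^ (S.hh - 1) * (max 1 (B / (b : ℝ))) ^ (-e) ≤ (b : ℝ) ^ (S.hh - 1) * 1 :=
              mul_le_mul_of_nonneg_left hMe (by positivity)
          _ = (b : ℝ) ^ (S.hh - 1) := mul_one _
          _ ≤ B ^ (S.hh - 1) := Real.rpow_le_rpow_of_nonpos hB0 hBb (by linarith [hhh.2.2.1, eta_pos S])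
          _ ≤ B ^ (-e) := Real.rpow_le_rpow_of_exponent_le hB (by linarith [hhh.2.2.1])
      · have h4 : (max 1 (B / (b : ℝ))) ^ (-e) ≤ (B / b) ^ (-e) :=
          Real.rpow_le_rpow_of_nonpos (by positivity) (le_max_right _ _) (by linarith)
        calc (b : ℝ) ^ (S.hh - 1) * (max 1 (B / (b : ℝ))) ^ (-e) ≤ (b : ℝ) ^ (S.hh - 1) * (B / b) ^ (-e) :=
              mul_le_mul_of_nonneg_left h4 (by positivity)
          _ = B ^ (-e) * (b : ℝ) ^ (S.hh - 1 + e) := by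
            rw [Real.div_rpow hB0.le hb0.le, Real.rpow_add hb0, Real.rpow_neg hb0.le]
            field_simp
          _ ≤ B ^ (-e) * 1 := by
            refine mul_le_mul_of_nonneg_left ?_ (by positivity)
            exact Real.rpow_le_one_of_one_le_of_nonpos hb1 (by linarith [hhh.2.2.1])
          _ = B ^ (-e) := mul_one _
    · rw [mul_assoc]
      calc (x : ℝ) ^ (1 / 2 - e) * ((b : ℝ) ^ (S.hh - 1 / 2 + e) * (max 1 (B / (b : ℝ))) ^ (-e))
          ≤ (x : ℝ) ^ (1 / 2 - e) * (1 * 1) := by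
            refine mul_le_mul_of_nonneg_left ?_ (by positivity)
            refine mul_le_mul ?_ hMe (by positivity) (by norm_num)
            exact Real.rpow_le_one_of_one_le_of_nonpos hb1 (by linarith [hhh.2.2.2])
        _ = (x : ℝ) ^ (1 / 2 - e) := by ring
  refine (Finset.sum_le_sum h3).trans ?_
  rw [Finset.sum_const, nsmul_eq_mul]
  have h5 : ((((Icc 1 (2 * x)).filter (fun b => b.primeFactors ⊆ O ∧ 1 ∣ b)).card : ℕ) : ℝ) ≤
      2 ^ (O.card + Nat.log P0 (2 * x)) := by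
    have := (card_le_Ng O 1 x).trans (Ng_le P0 hP0 O hO (2 * x))
    exact_mod_cast this
  calc ((((Icc 1 (2 * x)).filter (fun b => b.primeFactors ⊆ O ∧ 1 ∣ b)).card : ℕ) : ℝ) * (C * E)
      ≤ 2 ^ (O.card + Nat.log P0 (2 * x)) * (C * E) := mul_le_mul_of_nonneg_right h5 (by positivity)
    _ = C * 2 ^ (O.card + Nat.log P0 (2 * x)) * E := by ring

end Pool.Agent.Helper18.KL
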