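import Pool.Agent.Helper18.KL.PowA
import Pool.Agent.Helper16.KS.Basic

/-! Project KS: reduction of the conditional expectations to the relative weights. -/

set_option autoImplicit false
open scoped Classical
open Finset

namespace Pool.Agent.Helper18.KL

open Pool.Agent.Helper16.KS

theorem gam_le_base (S : Sys) {p : ℕ} (hp : 1 ≤ p) : S.gam p ≤ S.base p := by
  unfold Sys.gam Sys.base
  refine Real.rpow_le_rpow_of_exponent_le (by exact_mod_cast hp) ?_
  have h1 := S.del_le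
  have h2 := S.s_lt
  have h3 := S.tau_le_s
  have h4 := S.s_pos
  have h5 : S.s / 10 ^ 6 ≤ S.s := by rw [div_le_iff₀ (by positivity)]; nlinarith
  norm_num at h2
  linarith

theorem base_le (S : Sys) {p : ℕ} (hp : 1 ≤ p) : S.base p ≤ S.gam p * (p : ℝ) ^ S.hh := by
  unfold Sys.gam Sys.base
  have hp0 : (0 : ℝ) < p := by exact_mod_cast hp
  rw [← Real.rpow_add hp0]
  refine Real.rpow_le_rpow_of_exponent_le (by exact_mod_cast hp) ?_
  have h3 := S.tau_pos
  rw [S.hh_eq]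
  linarith

/-- one prime -/
theorem prime_term (S : Sys) (D O : Finset ℕ) {p v : ℕ} (hp : 1 ≤ p) (hv : 1 ≤ v) :
    (if p ∈ D then (S.base p + S.gam p) ^ v else S.gam p ^ v) * (if p ∈ D ∧ p ∉ O then S.pr p else 1) ≤
      2 ^ v * S.gam p ^ v * ((if p ∈ O then p ^ v else p ^ (v - 1) : ℕ) : ℝ) ^ S.hh := by
  have hp0 : (0 : ℝ) < p := by exact_mod_cast hp
  have hp1 : (1 : ℝ) ≤ p := by exact_mod_cast hp
  have hg := S.gam_nonneg p
  have hb := S.base_nonneg p
  have h2v : (1 : ℝ) ≤ 2 ^ v := one_le_pow₀ (by norm_num)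
  have hhh := (hh_le S).2.1
  by_cases hD : p ∈ D
  · rw [if_pos hD]
    have h1 : (S.base p + S.gam p) ^ v ≤ 2 ^ v * S.gam p ^ v * ((p : ℝ) ^ S.hh) ^ v := by
      have h2 : S.base p + S.gam p ≤ 2 * S.gam p * (p : ℝ) ^ S.hh := by
        have := gam_le_base S hp
        have := base_le S hp
        linarith
      calc (S.base p + S.gam p) ^ v ≤ (2 * S.gam p * (p : ℝ) ^ S.hh) ^ v := pow_le_pow_left₀ (by positivity) h2 v
        _ = _ := by rw [mul_pow, mul_pow]
    have h3 : ((p : ℝ) ^ S.hh) ^ v = ((p : ℝ) ^ v) ^ S.hh := by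
      rw [← Real.rpow_natCast, ← Real.rpow_natCast, ← Real.rpow_mul hp0.le, ← Real.rpow_mul hp0.le, mul_comm]
    by_cases hO : p ∈ O
    · rw [if_neg (by tauto), if_pos hO, mul_one]
      push_cast
      rw [← h3]
      exact h1
    · rw [if_pos ⟨hD, hO⟩, if_neg hO]
      push_cast
      have h4 : ((p : ℝ) ^ v) ^ S.hh * S.pr p = ((p : ℝ) ^ (v - 1)) ^ S.hh := by
        unfold Sys.pr
        have e1 : (p : ℝ) ^ v = (p : ℝ) ^ (v - 1) * p := by
          rw [← pow_succ]; congr 1; omega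
        rw [e1, Real.mul_rpow (by positivity) hp0.le, mul_assoc, ← Real.rpow_add hp0]
        rw [add_neg_cancel, Real.rpow_zero, mul_one]
      calc (S.base p + S.gam p) ^ v * S.pr p ≤ (2 ^ v * S.gam p ^ v * ((p : ℝ) ^ S.hh) ^ v) * S.pr p :=
            mul_le_mul_of_nonneg_right h1 (S.pr_nonneg p)
        _ = 2 ^ v * S.gam p ^ v * (((p : ℝ) ^ v) ^ S.hh * S.pr p) := by rw [h3]; ring
        _ = _ := by rw [h4]
  · rw [if_neg hD, if_neg (by tauto), mul_one]
    have h1 : (1 : ℝ) ≤ ((if p ∈ O then p ^ v else p ^ (v - 1) : ℕ) : ℝ) ^ S.hh := by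
      refine Real.one_le_rpow ?_ hhh.le
      split_ifs <;> exact_mod_cast Nat.one_le_pow _ _ hp
    have h2 : 0 ≤ S.gam p ^ v := by positivity
    calc S.gam p ^ v ≤ 2 ^ v * S.gam p ^ v := by nlinarith
      _ ≤ 2 ^ v * S.gam p ^ v * ((if p ∈ O then p ^ v else p ^ (v - 1) : ℕ) : ℝ) ^ S.hh := by
        have : 0 ≤ 2 ^ v * S.gam p ^ v := by positivity
        nlinarith

/-- product over the primes of `l` -/
theorem Fe_bound (S : Sys) (D O : Finset ℕ) {l : ℕ} (hl : l ≠ 0) (hD : D ⊆ l.primeFactors) :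
    S.Fe D l * ∏ p ∈ D \ O, S.pr p ≤
      2 ^ l.primeFactorsList.length * (l : ℝ) ^ (S.s - 1 + 6 * S.tau) * (sig O l : ℝ) ^ S.hh := by
  have h1 : ∏ p ∈ D \ O, S.pr p = ∏ p ∈ l.primeFactors, if p ∈ D ∧ p ∉ O then S.pr p else 1 := by
    rw [← Finset.prod_filter]
    refine Finset.prod_congr ?_ fun _ _ => rfl
    ext p
    simp only [Finset.mem_sdiff, Finset.mem_filter]
    constructor
    · rintro ⟨h1, h2⟩; exact ⟨hD h1, h1, h2⟩
    · rintro ⟨_, h1, h2⟩; exact ⟨h1, h2⟩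
  have h2 : (2 : ℝ) ^ l.primeFactorsList.length = ∏ p ∈ l.primeFactors, (2 : ℝ) ^ l.factorization p := by
    rw [← CM_const, CM_eq_prod]
  have h3 : (l : ℝ) ^ (S.s - 1 + 6 * S.tau) = ∏ p ∈ l.primeFactors, S.gam p ^ l.factorization p := by
    rw [← CM_rpow _ hl, CM_eq_prod]
    rfl
  have h4 : (sig O l : ℝ) ^ S.hh = ∏ p ∈ l.primeFactors,
      ((if p ∈ O then p ^ l.factorization p else p ^ (l.factorization p - 1) : ℕ) : ℝ) ^ S.hh := by
    unfold sig
    rw [Nat.cast_prod, Real.finsetProd_rpow _ _ (fun i _ => Nat.cast_nonneg _)]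
  rw [h1, h2, h3, h4]
  unfold Sys.Fe
  rw [← Finset.prod_mul_distrib, ← Finset.prod_mul_distrib, ← Finset.prod_mul_distrib]
  refine Finset.prod_le_prod (fun p _ => ?_) fun p hp => ?_
  · refine mul_nonneg ?_ ?_
    · split_ifs
      · exact pow_nonneg (add_nonneg (S.base_nonneg _) (S.gam_nonneg _)) _
      · exact pow_nonneg (S.gam_nonneg _) _
    · split_ifs
      · exact S.pr_nonneg _
      · norm_num
  · have hpp := Nat.prime_of_mem_primeFactors hp
    exact prime_term S D O hpp.one_le (hpp.factorization_pos_of_dvd hl (Nat.dvd_of_mem_primeFactors hp))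

theorem mA_pos (A : Finset ℕ) (m : ℕ) : 1 ≤ mA A m := by
  refine Nat.one_le_iff_ne_zero.2 (Finset.prod_ne_zero_iff.2 fun p hp => ?_)
  rw [Finset.mem_inter] at hp
  exact (Nat.prime_of_mem_primeFactors hp.1).ne_zero

theorem mA_mul {A : Finset ℕ} {m : ℕ} (hm : Squarefree m) :
    mA A m * ∏ p ∈ m.primeFactors \ A, p = m := by
  unfold mA
  rw [← Finset.prod_union]
  · rw [Finset.union_comm, Finset.sdiff_union_inter]
    exact Nat.prod_primeFactors_of_squarefree hm
  · exact Finset.disjoint_of_subset_left Finset.inter_subset_right Finset.disjoint_sdiff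

theorem prod_pr_sdiff (S : Sys) {A : Finset ℕ} {m : ℕ} (hm : Squarefree m) :
    ∏ p ∈ m.primeFactors \ A, S.pr p = ((mA A m : ℝ) / m) ^ S.hh := by
  have h1 : ∏ p ∈ m.primeFactors \ A, S.pr p = (((∏ p ∈ m.primeFactors \ A, p : ℕ)) : ℝ) ^ (-S.hh) := by
    rw [Nat.cast_prod, ← Real.finsetProd_rpow _ _ (fun i _ => Nat.cast_nonneg _)]
    rfl
  have h2 := mA_mul (A := A) hm
  have h3 : ((∏ p ∈ m.primeFactors \ A, p : ℕ) : ℝ) ≠ 0 := by
    have : (∏ p ∈ m.primeFactors \ A, p) ≠ 0 := Finset.prod_ne_zero_iff.2 fun p hp =>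
      (Nat.prime_of_mem_primeFactors (Finset.sdiff_subset hp)).ne_zero
    exact_mod_cast this
  have h4 : (mA A m : ℝ) ≠ 0 := by
    have := mA_pos A m
    exact_mod_cast (by omega : mA A m ≠ 0)
  have h5 : (mA A m : ℝ) / m = (((∏ p ∈ m.primeFactors \ A, p : ℕ)) : ℝ)⁻¹ := by
    have h6 : (m : ℝ) = (mA A m : ℝ) * ((∏ p ∈ m.primeFactors \ A, p : ℕ) : ℝ) := by exact_mod_cast h2.symm
    rw [h6]
    field_simp
  rw [h1, h5, Real.inv_rpow (Nat.cast_nonneg _), Real.rpow_neg (Nat.cast_nonneg _)]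

theorem pc_eq (S : Sys) {A D : Finset ℕ} {m : ℕ} (hm : Squarefree m) :
    S.pc A (m.primeFactors ∪ D) = ((mA A m : ℝ) / m) ^ S.hh * ∏ p ∈ D \ (A ∪ m.primeFactors), S.pr p := by
  unfold Sys.pc
  have h1 : (m.primeFactors ∪ D) \ A = (m.primeFactors \ A) ∪ (D \ (A ∪ m.primeFactors)) := by
    ext p
    simp only [Finset.mem_sdiff, Finset.mem_union]
    tauto
  rw [h1, Finset.prod_union, prod_pr_sdiff S hm]
  rw [Finset.disjoint_left]
  intro p hp hp2
  rw [Finset.mem_sdiff] at hp hp2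
  exact hp2.2 (Finset.mem_union_right _ hp.1)

/-- the power of `2^k` in one term -/
theorem level_bound (S : Sys) {k k' q m l : ℕ} (hq : 1 ≤ q) (hm : 1 ≤ m) (hl : 1 ≤ l)
    (h1 : q * m < 2 ^ (k' + 1)) (h2 : 2 ^ k ≤ q * l) (h3 : q * l < 2 ^ (k + 1)) (hk' : k' < 3 * (k + 1)) :
    S.wd k' m * (l : ℝ) ^ (S.s - 1 + 6 * S.tau) ≤
      2 * (2 : ℝ) ^ (9 * S.tau * (k + 1)) * (2 : ℝ) ^ ((S.s - 1) * k) := by
  have hq0 : (0 : ℝ) < q := by exact_mod_cast hq
  have hm0 : (0 : ℝ) < m := by exact_mod_cast hm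
  have hl0 : (0 : ℝ) < l := by exact_mod_cast hl
  have hq1 : (1 : ℝ) ≤ q := by exact_mod_cast hq
  have hs := S.s_pos
  have hs1 : S.s ≤ 1 := by have := S.s_lt; norm_num at this; linarith
  have ht := S.tau_pos
  have e1 : (q : ℝ) * m ≤ (2 : ℝ) ^ ((k' : ℝ) + 1) := by
    have : ((q * m : ℕ) : ℝ) ≤ ((2 ^ (k' + 1) : ℕ) : ℝ) := by exact_mod_cast h1.le
    push_cast at this
    rwa [← Real.rpow_natCast, Nat.cast_add, Nat.cast_one] at this
  have e2 : (2 : ℝ) ^ (k : ℝ) ≤ (q : ℝ) * l := by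
    have : ((2 ^ k : ℕ) : ℝ) ≤ ((q * l : ℕ) : ℝ) := by exact_mod_cast h2
    push_cast at this
    rwa [Real.rpow_natCast]
  have e3 : (q : ℝ) * l ≤ (2 : ℝ) ^ ((k : ℝ) + 1) := by
    have : ((q * l : ℕ) : ℝ) ≤ ((2 ^ (k + 1) : ℕ) : ℝ) := by exact_mod_cast h3.le
    push_cast at this
    rwa [← Real.rpow_natCast, Nat.cast_add, Nat.cast_one] at this
  -- m^(1-s) l^(s-1)
  have e4 : (m : ℝ) ^ (1 - S.s) * (l : ℝ) ^ (S.s - 1) ≤
      (2 : ℝ) ^ (((k' : ℝ) + 1) * (1 - S.s)) * (2 : ℝ) ^ ((S.s - 1) * k) := by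
    have e5 : (m : ℝ) ^ (1 - S.s) ≤ ((2 : ℝ) ^ ((k' : ℝ) + 1) / q) ^ (1 - S.s) := by
      refine Real.rpow_le_rpow hm0.le ?_ (by linarith)
      rw [le_div_iff₀ hq0]; linarith
    have e6 : (l : ℝ) ^ (S.s - 1) ≤ ((2 : ℝ) ^ (k : ℝ) / q) ^ (S.s - 1) := by
      refine Real.rpow_le_rpow_of_nonpos (by positivity) ?_ (by linarith)
      rw [div_le_iff₀ hq0]; linarith
    refine (mul_le_mul e5 e6 (by positivity) (by positivity)).trans (le_of_eq ?_)
    rw [Real.div_rpow (by positivity) hq0.le, Real.div_rpow (by positivity) hq0.le, ← Real.rpow_mul (by norm_num),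
      ← Real.rpow_mul (by norm_num)]
    have e7 : (q : ℝ) ^ (S.s - 1) = ((q : ℝ) ^ (1 - S.s))⁻¹ := by
      rw [← Real.rpow_neg hq0.le]; congr 1; ring
    rw [e7]
    have e8 : (q : ℝ) ^ (1 - S.s) ≠ 0 := by positivity
    field_simp
  have e9 : (m : ℝ) ^ S.tau ≤ (2 : ℝ) ^ (((k' : ℝ) + 1) * S.tau) := by
    rw [Real.rpow_mul (by norm_num)]
    refine Real.rpow_le_rpow hm0.le ?_ ht.le
    nlinarith
  have e10 : (l : ℝ) ^ (6 * S.tau) ≤ (2 : ℝ) ^ (((k : ℝ) + 1) * (6 * S.tau)) := by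
    rw [Real.rpow_mul (x := 2) (by norm_num) ((k : ℝ) + 1) (6 * S.tau)]
    refine Real.rpow_le_rpow hl0.le ?_ (by linarith)
    nlinarith
  have e11 : S.wd k' m * (l : ℝ) ^ (S.s - 1 + 6 * S.tau) =
      (2 : ℝ) ^ ((S.s - 1) * k') * ((m : ℝ) ^ (1 - S.s) * (l : ℝ) ^ (S.s - 1)) * (m : ℝ) ^ S.tau *
        (l : ℝ) ^ (6 * S.tau) := by
    unfold Sys.wd
    rw [Real.rpow_add hm0, Real.rpow_add hl0]
    ring
  rw [e11]
  have e12 : (2 : ℝ) ^ ((S.s - 1) * k') * ((m : ℝ) ^ (1 - S.s) * (l : ℝ) ^ (S.s - 1)) * (m : ℝ) ^ S.tau *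
        (l : ℝ) ^ (6 * S.tau) ≤ (2 : ℝ) ^ ((S.s - 1) * k') *
        ((2 : ℝ) ^ (((k' : ℝ) + 1) * (1 - S.s)) * (2 : ℝ) ^ ((S.s - 1) * k)) * (2 : ℝ) ^ (((k' : ℝ) + 1) * S.tau) *
        (2 : ℝ) ^ (((k : ℝ) + 1) * (6 * S.tau)) := by
    refine mul_le_mul ?_ e10 (by positivity) (by positivity)
    refine mul_le_mul ?_ e9 (by positivity) (by positivity)
    exact mul_le_mul_of_nonneg_left e4 (by positivity)
  refine e12.trans ?_
  have e13 : (2 : ℝ) ^ ((S.s - 1) * k') * ((2 : ℝ) ^ (((k' : ℝ) + 1) * (1 - S.s)) * (2 : ℝ) ^ ((S.s - 1) * k)) *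
        (2 : ℝ) ^ (((k' : ℝ) + 1) * S.tau) * (2 : ℝ) ^ (((k : ℝ) + 1) * (6 * S.tau)) =
      (2 : ℝ) ^ (1 - S.s) * (2 : ℝ) ^ (((k' : ℝ) + 1) * S.tau + ((k : ℝ) + 1) * (6 * S.tau)) *
        (2 : ℝ) ^ ((S.s - 1) * k) := by
    rw [← Real.rpow_add (by norm_num), ← Real.rpow_add (by norm_num), ← Real.rpow_add (by norm_num),
      ← Real.rpow_add (by norm_num), ← Real.rpow_add (by norm_num), ← Real.rpow_add (by norm_num)]
    congr 1
    ring
  rw [e13]
  refine mul_le_mul_of_nonneg_right ?_ (by positivity)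
  have e14 : (2 : ℝ) ^ (1 - S.s) ≤ 2 := by
    calc (2 : ℝ) ^ (1 - S.s) ≤ 2 ^ (1 : ℝ) := Real.rpow_le_rpow_of_exponent_le (by norm_num) (by linarith)
      _ = 2 := Real.rpow_one _
  refine mul_le_mul e14 ?_ (by positivity) (by norm_num)
  refine Real.rpow_le_rpow_of_exponent_le (by norm_num) ?_
  have : (k' : ℝ) + 1 ≤ 3 * (k + 1) := by exact_mod_cast hk'
  nlinarith

theorem red : Red := by
  intro S
  set K0 : ℕ := max (S.K + 1) ⌈4 / S.tau⌉₊ with hK0
  refine ⟨K0, ?_⟩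
  intro k0 hk0 k hk j hj Q A
  have ht := S.tau_pos
  have hk01 : 1 ≤ k0 := by
    have : S.K + 1 ≤ K0 := le_max_left _ _
    omega
  have hk0K : S.K ≤ k0 := by
    have : S.K + 1 ≤ K0 := le_max_left _ _
    omega
  have hk0t : 4 / S.tau ≤ k0 := by
    calc 4 / S.tau ≤ (⌈4 / S.tau⌉₊ : ℝ) := Nat.le_ceil _
      _ ≤ K0 := by exact_mod_cast le_max_right _ _
      _ ≤ k0 := by exact_mod_cast hk0
  have hk0r : (0 : ℝ) < k0 := by exact_mod_cast hk01
  have hkr : (k0 : ℝ) ≤ k := by exact_mod_cast hk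
  have hk0t' : 4 ≤ S.tau * k0 := by rw [div_le_iff₀ ht] at hk0t; linarith
  unfold Sys.LP LS
  rw [Finset.mul_sum]
  refine Finset.sum_le_sum fun n hn => ?_
  rw [Finset.mul_sum]
  refine Finset.sum_le_sum fun k' hk' => ?_
  rw [Finset.mul_sum]
  refine Finset.sum_le_sum fun j' hj' => ?_
  rw [Finset.mem_filter] at hn
  obtain ⟨hncell, hrough⟩ := hn
  have hnge := cell_ge hncell
  have hnlt := cell_lt S.d_pos hj hncell
  have hn0 : n ≠ 0 := by
    have : 0 < 2 ^ k := by positivity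
    omega
  unfold Sys.hvy at hk'
  rw [Finset.mem_Ico] at hk'
  have hk'K : S.K ≤ k' := by
    have := (le_max_left k0 ⌈S.kap * k⌉₊).trans hk'.1
    omega
  -- compare termwise
  have hinner : ∀ x ∈ (S.Cand k' j').filter (fun x => x.1 ∣ n ∧ Q (k', j') n x),
      ∑ D ∈ (n / x.1).primeFactors.powerset.filter (fun D => A ⊆ x.2.primeFactors ∪ D),
        S.wd k' x.2 * S.Fe D (n / x.1) * S.pc A (x.2.primeFactors ∪ D) ≤
      if A ⊆ x.2.primeFactors ∪ (n / x.1).primeFactors then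
        (2 : ℝ) ^ (20 * S.tau * k) * (2 : ℝ) ^ ((S.s - 1) * k) * tw S A x.2 (n / x.1) else 0 := by
    intro x hx
    rw [Finset.mem_filter] at hx
    obtain ⟨hxC, hxn, _⟩ := hx
    obtain ⟨hq, hsq, hcop, hm1, hxcell, hge, hlt, _, _⟩ := S.cand_facts hk'K hj' hxC
    set l := n / x.1 with hl
    have hql : x.1 * l = n := Nat.mul_div_cancel' hxn
    have hl0 : l ≠ 0 := by
      rintro h0
      rw [h0, mul_zero] at hql
      exact hn0 hql.symm
    split_ifs with hA
    · -- each D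
      have hterm : ∀ D ∈ l.primeFactors.powerset.filter (fun D => A ⊆ x.2.primeFactors ∪ D),
          S.wd k' x.2 * S.Fe D l * S.pc A (x.2.primeFactors ∪ D) ≤
          2 * (2 : ℝ) ^ (9 * S.tau * (k + 1)) * (2 : ℝ) ^ ((S.s - 1) * k) * 2 ^ l.primeFactorsList.length *
            tw S A x.2 l := by
        intro D hD
        rw [Finset.mem_filter, Finset.mem_powerset] at hD
        have h1 := Fe_bound S D (A ∪ x.2.primeFactors) hl0 hD.1
        rw [pc_eq S hsq]
        have h2 := level_bound S (k := k) (k' := k') (q := x.1) (m := x.2) (l := l) hq.one_le hm1.le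
          (Nat.one_le_iff_ne_zero.2 hl0) hlt (by rw [hql]; exact hnge) (by rw [hql]; exact hnlt) hk'.2
        have h3 : tw S A x.2 l = ((mA A x.2 : ℝ) / x.2) ^ S.hh * (sig (A ∪ x.2.primeFactors) l : ℝ) ^ S.hh := by
          unfold tw
          rw [Real.mul_rpow (by positivity) (Nat.cast_nonneg _)]
        rw [h3]
        have hwd := S.wd_nonneg k' x.2
        calc S.wd k' x.2 * S.Fe D l * (((mA A x.2 : ℝ) / x.2) ^ S.hh *
                ∏ p ∈ D \ (A ∪ x.2.primeFactors), S.pr p)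
            = S.wd k' x.2 * (S.Fe D l * ∏ p ∈ D \ (A ∪ x.2.primeFactors), S.pr p) *
                ((mA A x.2 : ℝ) / x.2) ^ S.hh := by ring
          _ ≤ S.wd k' x.2 * (2 ^ l.primeFactorsList.length * (l : ℝ) ^ (S.s - 1 + 6 * S.tau) *
                (sig (A ∪ x.2.primeFactors) l : ℝ) ^ S.hh) * ((mA A x.2 : ℝ) / x.2) ^ S.hh :=
              mul_le_mul_of_nonneg_right (mul_le_mul_of_nonneg_left h1 hwd) (by positivity)
          _ = (S.wd k' x.2 * (l : ℝ) ^ (S.s - 1 + 6 * S.tau)) * (2 ^ l.primeFactorsList.length *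
                (((mA A x.2 : ℝ) / x.2) ^ S.hh * (sig (A ∪ x.2.primeFactors) l : ℝ) ^ S.hh)) := by ring
          _ ≤ (2 * (2 : ℝ) ^ (9 * S.tau * (k + 1)) * (2 : ℝ) ^ ((S.s - 1) * k)) *
                (2 ^ l.primeFactorsList.length *
                (((mA A x.2 : ℝ) / x.2) ^ S.hh * (sig (A ∪ x.2.primeFactors) l : ℝ) ^ S.hh)) :=
              mul_le_mul_of_nonneg_right h2 (by positivity)
          _ = _ := by ring
      have htw0 : 0 ≤ tw S A x.2 l := by unfold tw; positivity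
      refine (Finset.sum_le_card_nsmul _ _ _ hterm).trans ?_
      rw [nsmul_eq_mul]
      have hcard : (((l.primeFactors.powerset.filter (fun D => A ⊆ x.2.primeFactors ∪ D)).card : ℕ) : ℝ) ≤
          2 ^ l.primeFactorsList.length := by
        have h1 : (l.primeFactors.powerset.filter (fun D => A ⊆ x.2.primeFactors ∪ D)).card ≤
            2 ^ l.primeFactorsList.length := by
          refine (Finset.card_filter_le _ _).trans ?_
          rw [Finset.card_powerset]
          exact Nat.pow_le_pow_right (by norm_num) (List.toFinset_card_le _)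
        exact_mod_cast h1
      have hlrough : Sys.rough k0 l := fun p hp hpl => hrough p hp (hpl.trans (Nat.div_dvd_of_dvd hxn))
      have hll : l < 2 ^ (k + 1) := (Nat.div_le_self _ _).trans_lt hnlt
      have hom := Sys.rough_omega_le hk01 hl0 hlrough hll
      have hom2 : (l.primeFactorsList.length : ℝ) ≤ 5 / 2 * S.tau * k := by
        refine hom.trans ?_
        rw [div_le_iff₀ hk0r]
        have h1 : (k : ℝ) + 1 ≤ 2 * k := by
          have : (1 : ℝ) ≤ k := by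
            have : (1 : ℝ) ≤ k0 := by exact_mod_cast hk01
            linarith
          linarith
        have hk1 : (0 : ℝ) ≤ k := Nat.cast_nonneg k
        calc 5 * ((k : ℝ) + 1) ≤ 10 * k := by linarith
          _ = 5 / 2 * 4 * k := by ring
          _ ≤ 5 / 2 * (S.tau * k0) * k := by nlinarith
          _ = 5 / 2 * S.tau * k * k0 := by ring
      have hpow : (2 : ℝ) ^ l.primeFactorsList.length ≤ (2 : ℝ) ^ (5 / 2 * S.tau * k) := by
        rw [← Real.rpow_natCast]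
        exact Real.rpow_le_rpow_of_exponent_le (by norm_num) hom2
      have hfin : (2 : ℝ) ^ l.primeFactorsList.length * (2 * (2 : ℝ) ^ (9 * S.tau * (k + 1)) *
          2 ^ l.primeFactorsList.length) ≤ (2 : ℝ) ^ (20 * S.tau * k) := by
        calc (2 : ℝ) ^ l.primeFactorsList.length * (2 * (2 : ℝ) ^ (9 * S.tau * (k + 1)) *
              2 ^ l.primeFactorsList.length)
            ≤ (2 : ℝ) ^ (5 / 2 * S.tau * k) * (2 * (2 : ℝ) ^ (9 * S.tau * (k + 1)) *
              (2 : ℝ) ^ (5 / 2 * S.tau * k)) := by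
              refine mul_le_mul hpow ?_ (by positivity) (by positivity)
              exact mul_le_mul_of_nonneg_left hpow (by positivity)
          _ = (2 : ℝ) ^ (5 / 2 * S.tau * k + (1 + 9 * S.tau * (k + 1) + 5 / 2 * S.tau * k)) := by
              rw [Real.rpow_add (by norm_num), Real.rpow_add (by norm_num) (1 + 9 * S.tau * (k + 1)),
                Real.rpow_add (by norm_num) (1 : ℝ), Real.rpow_one]
          _ ≤ (2 : ℝ) ^ (20 * S.tau * k) := by
              refine Real.rpow_le_rpow_of_exponent_le (by norm_num) ?_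
              have h1 : 4 ≤ S.tau * k := by nlinarith
              have h2 : S.tau ≤ 1 / 100 := by
                have := S.tau_le_s
                have := S.s_lt
                norm_num at *
                linarith
              nlinarith
      calc (((l.primeFactors.powerset.filter (fun D => A ⊆ x.2.primeFactors ∪ D)).card : ℕ) : ℝ) *
            (2 * (2 : ℝ) ^ (9 * S.tau * (k + 1)) * (2 : ℝ) ^ ((S.s - 1) * k) * 2 ^ l.primeFactorsList.length *
            tw S A x.2 l)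
          ≤ 2 ^ l.primeFactorsList.length *
            (2 * (2 : ℝ) ^ (9 * S.tau * (k + 1)) * (2 : ℝ) ^ ((S.s - 1) * k) * 2 ^ l.primeFactorsList.length *
            tw S A x.2 l) := mul_le_mul_of_nonneg_right hcard (by positivity)
        _ = ((2 : ℝ) ^ l.primeFactorsList.length * (2 * (2 : ℝ) ^ (9 * S.tau * (k + 1)) *
              2 ^ l.primeFactorsList.length)) * ((2 : ℝ) ^ ((S.s - 1) * k) * tw S A x.2 l) := by ring
        _ ≤ (2 : ℝ) ^ (20 * S.tau * k) * ((2 : ℝ) ^ ((S.s - 1) * k) * tw S A x.2 l) :=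
            mul_le_mul_of_nonneg_right hfin (by positivity)
        _ = _ := by ring
    · -- no D
      rw [Finset.sum_eq_zero]
      intro D hD
      rw [Finset.mem_filter, Finset.mem_powerset] at hD
      exact absurd (hD.2.trans (Finset.union_subset_union_right hD.1)) hA
  refine (Finset.sum_le_sum hinner).trans ?_
  rw [← Finset.sum_filter, Finset.filter_filter, Finset.mul_sum]
  refine le_of_eq (Finset.sum_congr ?_ fun _ _ => rfl)
  refine Finset.filter_congr fun x _ => ?_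
  simp only [and_assoc]

end Pool.Agent.Helper18.KL
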