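import Pool.Agent.Helper16.KS.St

/-!
# Project KS: load theorem (Load1, Load2), common definitions and statements

`x = (q, m)` a candidate of a bad cell of block `k'`, `q ∣ n`, `n` in the cell `(k, j)`, `l = n / q`,
`A` the conditioning set.

* (Red) `LP ≤ 2^(20 τ k) 2^((s-1) k) LS`, `LS` the sum of the relative weights
  `((m_A / m) * sig (A ∪ pf m) l)^hh`.
* (KF) terms such that some prime of `m` is neither in `A` nor a divisor of `l`: `n` first.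
* (JF) terms such that `A` contains a prime of `m` and all the primes of `m` outside `A` divide `l`:
  candidates first.
* (LL) terms with `m ∣ l`, no prime of `m` in `A`, large cofactor.
-/

set_option autoImplicit false
open scoped Classical

namespace Pool.Agent.Helper18.KL

open Pool.Agent.Helper16.KS

/-- `∏ p^v` over the primes of `O`, `∏ p^(v-1)` over the other primes, `v` the exponent in `n` -/
noncomputable def sig (O : Finset ℕ) (n : ℕ) : ℕ :=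
  ∏ p ∈ n.primeFactors, if p ∈ O then p ^ n.factorization p else p ^ (n.factorization p - 1)

/-- the part of the squarefree number `m` composed of primes of `A` -/
def mA (A : Finset ℕ) (m : ℕ) : ℕ := ∏ p ∈ m.primeFactors ∩ A, p

/-- relative weight of a term -/
noncomputable def tw (S : Sys) (A : Finset ℕ) (m l : ℕ) : ℝ :=
  ((mA A m : ℝ) / m * (sig (A ∪ m.primeFactors) l : ℝ)) ^ S.hh

/-- sum of the relative weights -/
noncomputable def LS (S : Sys) (k0 k j : ℕ) (Q : ℕ × ℕ → ℕ → ℕ × ℕ → Prop) (A : Finset ℕ) : ℝ :=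
  ∑ n ∈ (cell S.d k j).filter (Sys.rough k0), ∑ k' ∈ S.hvy k0 k, ∑ j' ∈ S.badc k',
    ∑ x ∈ (S.Cand k' j').filter (fun x => x.1 ∣ n ∧ Q (k', j') n x ∧
      A ⊆ x.2.primeFactors ∪ (n / x.1).primeFactors), tw S A x.2 (n / x.1)

/-- (RED) -/
def Red : Prop := ∀ S : Sys, ∃ K0 : ℕ, ∀ k0 : ℕ, K0 ≤ k0 → ∀ k, k0 ≤ k → ∀ j < nc S.d k,
  ∀ (Q : ℕ × ℕ → ℕ → ℕ × ℕ → Prop) (A : Finset ℕ),
  S.LP k0 k j Q A ≤ (2 : ℝ) ^ (20 * S.tau * k) * (2 : ℝ) ^ ((S.s - 1) * k) * LS S k0 k j Q A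

/-- (POWA) weighted count of the multiples of `a` in a window, all primes of `a` in `O` -/
def PowA : Prop := ∀ S : Sys, ∀ e : ℝ, 0 < e → e ≤ S.eta → ∃ C : ℝ, 0 < C ∧
  ∀ (x y P0 : ℕ) (O : Finset ℕ) (a : ℕ), 1 ≤ x → y ≤ x → 2 ≤ P0 → (∀ p ∈ O, p.Prime ∧ P0 ≤ p) → 1 ≤ a →
  a.primeFactors ⊆ O →
  ∑ n ∈ (Finset.Ico x (x + y)).filter (fun n => a ∣ n), (sig O n : ℝ) ^ S.hh ≤
    C * 2 ^ (O.card + Nat.log P0 (2 * x)) *
      (y * (a : ℝ) ^ (S.hh - 1) + (x : ℝ) ^ (1 / 2 - e) * (a : ℝ) ^ (S.hh - 1 / 2 + e))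

/-- (POWB) weighted count of the numbers with large `sig` -/
def PowB : Prop := ∀ S : Sys, ∀ e : ℝ, 0 < e → e ≤ S.eta → ∃ C : ℝ, 0 < C ∧
  ∀ (x y P0 : ℕ) (O : Finset ℕ) (B : ℝ), 1 ≤ x → y ≤ x → 2 ≤ P0 → (∀ p ∈ O, p.Prime ∧ P0 ≤ p) → 1 ≤ B →
  ∑ n ∈ (Finset.Ico x (x + y)).filter (fun n => B ≤ (sig O n : ℝ)), (sig O n : ℝ) ^ S.hh ≤
    C * 2 ^ (O.card + Nat.log P0 (2 * x)) * (y * B ^ (-e) + (x : ℝ) ^ (1 / 2 - e))

/-- `n` first: some prime of `m` is neither in `A` nor a divisor of `n / q` -/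
def QK (A : Finset ℕ) (_ : ℕ × ℕ) (n : ℕ) (x : ℕ × ℕ) : Prop :=
  ∃ p : ℕ, p.Prime ∧ p ∣ x.2 ∧ p ∉ A ∧ ¬ p ∣ n / x.1

/-- candidates first: a prime of `m` is in `A`, the primes of `m` outside `A` divide `n / q` -/
def QJ (A : Finset ℕ) (_ : ℕ × ℕ) (n : ℕ) (x : ℕ × ℕ) : Prop :=
  (∃ p : ℕ, p.Prime ∧ p ∣ x.2 ∧ p ∈ A) ∧ ∀ p : ℕ, p.Prime → p ∣ x.2 → p ∉ A → p ∣ n / x.1

/-- direct terms with a large cofactor, no prime of `m` in `A` -/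
def QL (S : Sys) (A : Finset ℕ) (i : ℕ × ℕ) (n : ℕ) (x : ℕ × ℕ) : Prop :=
  S.Q2 i n x ∧ ∀ p : ℕ, p.Prime → p ∣ x.2 → p ∉ A

/-- the bound which is needed (the three classes and the blocks are added up) -/
def SmallLS (Q : Sys → Finset ℕ → ℕ × ℕ → ℕ → ℕ × ℕ → Prop) : Prop :=
  ∀ S : Sys, ∃ K0 : ℕ, ∀ k0 : ℕ, K0 ≤ k0 → ∀ k, k0 ≤ k → ∀ j < nc S.d k, ∀ A : Finset ℕ,
    LS S k0 k j (Q S A) A ≤ (2 : ℝ) ^ (-(S.ep / 40) * k) * 2 ^ ec S.d k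

def KF : Prop := SmallLS (fun _ A => QK A)
def JF : Prop := SmallLS (fun _ A => QJ A)
def LL : Prop := SmallLS (fun S A => QL S A)

end Pool.Agent.Helper18.KL
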