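import Pool.Agent.Helper18.KL.LL

/-! Project KS: Load2 from its parts. -/

set_option autoImplicit false
open scoped Classical
open Finset Filter Topology

namespace Pool.Agent.Helper18.KL

open Pool.Agent.Helper16.KS

theorem tw_nonneg (S : Sys) (A : Finset ℕ) (m l : ℕ) : 0 ≤ tw S A m l := by
  unfold tw; positivity

theorem LS_le_add (S : Sys) (k0 k j : ℕ) (Q Q1 Q2 : ℕ × ℕ → ℕ → ℕ × ℕ → Prop) (A : Finset ℕ)
    (h : ∀ k' ∈ S.hvy k0 k, ∀ j' ∈ S.badc k', ∀ x ∈ S.Cand k' j', ∀ n, Q (k', j') n x →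
      Q1 (k', j') n x ∨ Q2 (k', j') n x) :
    LS S k0 k j Q A ≤ LS S k0 k j Q1 A + LS S k0 k j Q2 A := by
  unfold LS
  rw [← Finset.sum_add_distrib]
  refine Finset.sum_le_sum fun n _ => ?_
  rw [← Finset.sum_add_distrib]
  refine Finset.sum_le_sum fun k' hk' => ?_
  rw [← Finset.sum_add_distrib]
  refine Finset.sum_le_sum fun j' hj' => ?_
  rw [Finset.sum_filter, Finset.sum_filter, Finset.sum_filter, ← Finset.sum_add_distrib]
  refine Finset.sum_le_sum fun x hx => ?_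
  have h0 := tw_nonneg S A x.2 (n / x.1)
  have h1 := h k' hk' j' hj' x hx n
  by_cases hQ : x.1 ∣ n ∧ Q (k', j') n x ∧ A ⊆ x.2.primeFactors ∪ (n / x.1).primeFactors
  · rw [if_pos hQ]
    rcases h1 hQ.2.1 with h2 | h2
    · rw [if_pos ⟨hQ.1, h2, hQ.2.2⟩]
      split_ifs <;> linarith
    · rw [if_pos (show x.1 ∣ n ∧ Q2 (k', j') n x ∧ A ⊆ x.2.primeFactors ∪ (n / x.1).primeFactors from
        ⟨hQ.1, h2, hQ.2.2⟩)]
      split_ifs <;> linarith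
  · rw [if_neg hQ]
    split_ifs <;> linarith

theorem pow_le_rpow (ρ C : ℝ) (m : ℕ) (hρ : 0 < ρ) : ∃ K1 : ℕ, ∀ k : ℕ, K1 ≤ k → C * (k : ℝ) ^ m ≤ (2 : ℝ) ^ (ρ * k) := by
  have hr : 1 < (2 : ℝ) ^ ρ := Real.one_lt_rpow (by norm_num) hρ
  have h1 := tendsto_pow_const_div_const_pow_of_one_lt m hr
  have h2 : Tendsto (fun n : ℕ => (|C| + 1) * ((n : ℝ) ^ m / ((2 : ℝ) ^ ρ) ^ n)) atTop (𝓝 0) := by
    simpa using h1.const_mul (|C| + 1)
  obtain ⟨K1, hK1⟩ := eventually_atTop.1 (h2.eventually (gt_mem_nhds (show (0 : ℝ) < 1 by norm_num)))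
  refine ⟨K1, fun k hk => ?_⟩
  have h4 := hK1 k hk
  have h6 : 0 < ((2 : ℝ) ^ ρ) ^ k := by positivity
  rw [← mul_div_assoc, div_lt_one h6] at h4
  have h7 : ((2 : ℝ) ^ ρ) ^ k = (2 : ℝ) ^ (ρ * k) := by
    rw [← Real.rpow_natCast, ← Real.rpow_mul (by norm_num)]
  rw [← h7]
  have h8 : C ≤ |C| + 1 := by linarith [le_abs_self C]
  have h9 : 0 ≤ (k : ℝ) ^ m := by positivity
  nlinarith

/-- final numerics for both load theorems -/
theorem load_of_small (hred : Red) (S : Sys) (Q : ℕ × ℕ → ℕ → ℕ × ℕ → Prop)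
    (hQ : ∃ K0 : ℕ, ∀ k0 : ℕ, K0 ≤ k0 → ∀ k, k0 ≤ k → ∀ j < nc S.d k, ∀ A : Finset ℕ,
      LS S k0 k j Q A ≤ 2 * ((2 : ℝ) ^ (-(S.ep / 40) * k) * 2 ^ ec S.d k)) :
    ∃ K0 : ℕ, ∀ k0 : ℕ, K0 ≤ k0 → ∀ k, k0 ≤ k → ∀ j < nc S.d k,
      ∀ A : Finset ℕ, S.LP k0 k j Q A ≤ (2 : ℝ) ^ (-(S.ep / 50) * k) * S.G k := by
  obtain ⟨K1, h1⟩ := hred S
  obtain ⟨K2, h2⟩ := hQ
  obtain ⟨K3, h3⟩ := pow_le_rpow (3 / 1000 * S.ep) 2 4 (by have := S.ep_pos; positivity)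
  refine ⟨max (max K1 K2) (max K3 1), ?_⟩
  intro k0 hk0 k hk j hj A
  have a1 : K1 ≤ k0 := ((le_max_left _ _).trans (le_max_left _ _)).trans hk0
  have a2 : K2 ≤ k0 := ((le_max_right _ _).trans (le_max_left _ _)).trans hk0
  have a3 : K3 ≤ k := (((le_max_left _ _).trans (le_max_right _ _)).trans hk0).trans hk
  have a4 : 1 ≤ k := (((le_max_right _ _).trans (le_max_right _ _)).trans hk0).trans hk
  have hk1 : (1 : ℝ) ≤ k := by exact_mod_cast a4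
  have hkpos : (0 : ℝ) < (k : ℝ) ^ 4 := by positivity
  refine (h1 k0 a1 k hk j hj Q A).trans ?_
  have h4 := h2 k0 a2 k hk j hj A
  have h5 := h3 k a3
  have hep := S.ep_pos
  unfold Sys.G
  calc (2 : ℝ) ^ (20 * S.tau * k) * (2 : ℝ) ^ ((S.s - 1) * k) * LS S k0 k j Q A
      ≤ (2 : ℝ) ^ (20 * S.tau * k) * (2 : ℝ) ^ ((S.s - 1) * k) *
        (2 * ((2 : ℝ) ^ (-(S.ep / 40) * k) * 2 ^ ec S.d k)) := mul_le_mul_of_nonneg_left h4 (by positivity)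
    _ = (2 * (k : ℝ) ^ 4) * ((2 : ℝ) ^ (20 * S.tau * k) * (2 : ℝ) ^ (-(S.ep / 40) * k)) *
        (2 ^ ec S.d k * (2 : ℝ) ^ ((S.s - 1) * k) / k ^ 4) := by
        field_simp
    _ ≤ (2 : ℝ) ^ (3 / 1000 * S.ep * k) * ((2 : ℝ) ^ (20 * S.tau * k) * (2 : ℝ) ^ (-(S.ep / 40) * k)) *
        (2 ^ ec S.d k * (2 : ℝ) ^ ((S.s - 1) * k) / k ^ 4) := by
        refine mul_le_mul_of_nonneg_right (mul_le_mul_of_nonneg_right h5 (by positivity)) (by positivity)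
    _ = (2 : ℝ) ^ (-(S.ep / 50) * k) * (2 ^ ec S.d k * (2 : ℝ) ^ ((S.s - 1) * k) / k ^ 4) := by
        rw [← Real.rpow_add (by norm_num), ← Real.rpow_add (by norm_num)]
        congr 2
        rw [S.tau_eq]
        ring

theorem load2_of (hred : Red) (hJ : JF) (hL : LL) : Load2 := by
  intro S
  refine load_of_small hred S S.Q2 ?_
  obtain ⟨K1, h1⟩ := hJ S
  obtain ⟨K2, h2⟩ := hL S
  refine ⟨max (max K1 K2) S.K, ?_⟩
  intro k0 hk0 k hk j hj A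
  have a1 : K1 ≤ k0 := ((le_max_left _ _).trans (le_max_left _ _)).trans hk0
  have a2 : K2 ≤ k0 := ((le_max_right _ _).trans (le_max_left _ _)).trans hk0
  have a3 : S.K ≤ k0 := (le_max_right _ _).trans hk0
  have h3 := h1 k0 a1 k hk j hj A
  have h4 := h2 k0 a2 k hk j hj A
  have h5 := LS_le_add S k0 k j S.Q2 (QJ A) (QL S A) A ?_
  · linarith
  · intro k' hk' j' hj' x hx n hQ
    by_cases hdis : ∀ p : ℕ, p.Prime → p ∣ x.2 → p ∉ A
    · right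
      exact ⟨hQ, hdis⟩
    · left
      push Not at hdis
      refine ⟨hdis, ?_⟩
      intro p _ hpx _
      exact hpx.trans hQ.1

end Pool.Agent.Helper18.KL
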