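import Pool.Agent.Helper18.KL.Red
import Pool.Agent.Helper88.KS.Basic

/-! Project KS: pairs `(n, n')`, `n' ∣ n`, in two cells. -/

set_option autoImplicit false
open scoped Classical
open Finset

namespace Pool.Agent.Helper18.KL

open Pool.Agent.Helper16.KS

/-- pairs in two cells with large quotient -/
noncomputable def PP (d : ℝ) (k j k' j' : ℕ) (L : ℝ) : Finset (ℕ × ℕ) :=
  (cell d k j ×ˢ cell d k' j').filter (fun y => y.2 ∣ y.1 ∧ L ≤ ((y.1 / y.2 : ℕ) : ℝ))

theorem mem_PP {d : ℝ} {k j k' j' : ℕ} {L : ℝ} {y : ℕ × ℕ} :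
    y ∈ PP d k j k' j' L ↔ y.1 ∈ cell d k j ∧ y.2 ∈ cell d k' j' ∧ y.2 ∣ y.1 ∧ L ≤ ((y.1 / y.2 : ℕ) : ℝ) := by
  unfold PP
  rw [Finset.mem_filter, Finset.mem_product]
  tauto

theorem card_cell (d : ℝ) (k j : ℕ) : (cell d k j).card = 2 ^ ec d k := by
  rw [Pool.Agent.Helper88.KS.cell_eq, Nat.card_Ico, Nat.add_sub_cancel_left]

/-- candidates first -/
theorem pairs_ii {d : ℝ} {k j k' j' : ℕ} (L : ℝ) :
    ((PP d k j k' j' L).card : ℝ) ≤ (2 : ℝ) ^ ec d k' * ((2 : ℝ) ^ ec d k / 2 ^ k' + 1) := by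
  set M : ℕ := ⌊(2 : ℝ) ^ ec d k / 2 ^ k' + 1⌋₊ with hM
  have hMr : (M : ℝ) ≤ (2 : ℝ) ^ ec d k / 2 ^ k' + 1 := Nat.floor_le (by positivity)
  have h1 : (PP d k j k' j' L).card ≤ M * (cell d k' j').card := by
    refine Finset.card_le_mul_card_image_of_maps_to (f := fun y : ℕ × ℕ => y.2) ?_ M ?_
    · intro y hy
      exact (mem_PP.1 hy).2.1
    · intro n' hn'
      have hn'1 : 2 ^ k' ≤ n' := cell_ge hn'
      have hn'0 : 0 < n' := by
        have : 0 < 2 ^ k' := by positivity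
        omega
      have h2 : ((PP d k j k' j' L).filter (fun y : ℕ × ℕ => y.2 = n')).card ≤
          ((cell d k j).filter (fun n => n' ∣ n)).card := by
        refine Finset.card_le_card_of_injOn (fun y => y.1) ?_ ?_
        · intro y hy
          rw [Finset.mem_coe, Finset.mem_filter] at hy
          have := mem_PP.1 hy.1
          rw [Finset.mem_coe, Finset.mem_filter]
          refine ⟨this.1, ?_⟩
          rw [← hy.2]; exact this.2.2.1
        · intro y hy y' hy' hyy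
          rw [Finset.mem_coe, Finset.mem_filter] at hy hy'
          exact Prod.ext hyy (hy.2.trans hy'.2.symm)
      refine h2.trans (Nat.le_floor ?_)
      rw [Pool.Agent.Helper88.KS.cell_eq]
      refine (Pool.Agent.Helper88.KS.card_mult_le _ _ _ hn'0).trans ?_
      push_cast
      have h3 : ((2 : ℝ) ^ ec d k) / n' ≤ (2 : ℝ) ^ ec d k / 2 ^ k' := by
        refine div_le_div_of_nonneg_left (by positivity) (by positivity) ?_
        exact_mod_cast hn'1
      linarith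
  rw [card_cell] at h1
  calc ((PP d k j k' j' L).card : ℝ) ≤ (M : ℝ) * ((2 ^ ec d k' : ℕ) : ℝ) := by exact_mod_cast h1
    _ ≤ ((2 : ℝ) ^ ec d k / 2 ^ k' + 1) * ((2 ^ ec d k' : ℕ) : ℝ) :=
      mul_le_mul_of_nonneg_right hMr (Nat.cast_nonneg _)
    _ = _ := by push_cast; ring

/-- cofactors first -/
theorem pairs_i {d : ℝ} (hd : 0 < d) {k j k' j' : ℕ} (hj : j < nc d k) (hj' : j' < nc d k') (L : ℝ) :
    ((PP d k j k' j' L).card : ℝ) ≤
      ((2 : ℝ) ^ ec d k / 2 ^ k' + 2 ^ (k + 1) * 2 ^ ec d k' / (2 ^ k') ^ 2 + 1) *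
        ((2 : ℝ) ^ ec d k * 2 ^ (k' + 1) / 2 ^ k + 1) := by
  set E : ℝ := (2 : ℝ) ^ ec d k with hE
  set E' : ℝ := (2 : ℝ) ^ ec d k' with hE'
  have hE0 : 0 < E := by positivity
  have hE'0 : 0 < E' := by positivity
  set M : ℕ := ⌊E * 2 ^ (k' + 1) / 2 ^ k + 1⌋₊ with hM
  have hMr : (M : ℝ) ≤ E * 2 ^ (k' + 1) / 2 ^ k + 1 := Nat.floor_le (by positivity)
  set x0 : ℕ := 2 ^ k + j * 2 ^ ec d k with hx0
  set x0' : ℕ := 2 ^ k' + j' * 2 ^ ec d k' with hx0'
  have hx0k : 2 ^ k ≤ x0 := Nat.le_add_right _ _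
  have hx0'k : 2 ^ k' ≤ x0' := Nat.le_add_right _ _
  have hx0lt : x0 ≤ 2 ^ (k + 1) := by
    have hmem : x0 ∈ cell d k j := by
      rw [Pool.Agent.Helper88.KS.cell_eq, Finset.mem_Ico]
      have : 0 < 2 ^ ec d k := by positivity
      omega
    exact (cell_lt hd hj hmem).le
  set α : ℝ := (x0 : ℝ) / (x0' + E') with hα
  set β : ℝ := ((x0 : ℝ) + E) / x0' with hβ
  have hx0'r : (2 : ℝ) ^ k' ≤ x0' := by exact_mod_cast hx0'k
  have hx0'p : (0 : ℝ) < x0' := lt_of_lt_of_le (by positivity) hx0'r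
  have hx0r : (x0 : ℝ) ≤ 2 ^ (k + 1) := by exact_mod_cast hx0lt
  have hx0n : (0 : ℝ) ≤ x0 := Nat.cast_nonneg _
  -- the cofactors
  have hmemP : ∀ y ∈ PP d k j k' j' L, 0 < y.2 ∧ y.1 = y.2 * (y.1 / y.2) ∧
      α ≤ ((y.1 / y.2 : ℕ) : ℝ) ∧ ((y.1 / y.2 : ℕ) : ℝ) ≤ β ∧ 2 ^ k ≤ y.1 ∧ y.2 < 2 ^ (k' + 1) := by
    intro y hy
    rw [mem_PP] at hy
    obtain ⟨h1, h2, h3, _⟩ := hy
    have g1 := cell_ge h1
    have g2 := cell_ge h2
    have g3 := cell_lt hd hj' h2
    have hy2 : 0 < y.2 := by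
      have : 0 < 2 ^ k' := by positivity
      omega
    have e1 : y.1 = y.2 * (y.1 / y.2) := (Nat.mul_div_cancel' h3).symm
    rw [Pool.Agent.Helper88.KS.cell_eq, Finset.mem_Ico] at h1 h2
    have r1 : (x0 : ℝ) ≤ y.1 := by exact_mod_cast h1.1
    have r2 : (y.1 : ℝ) ≤ x0 + E := by
      have : (y.1 : ℝ) ≤ ((x0 + 2 ^ ec d k : ℕ) : ℝ) := by exact_mod_cast h1.2.le
      push_cast at this
      exact this
    have r3 : (x0' : ℝ) ≤ y.2 := by exact_mod_cast h2.1
    have r4 : (y.2 : ℝ) ≤ x0' + E' := by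
      have : (y.2 : ℝ) ≤ ((x0' + 2 ^ ec d k' : ℕ) : ℝ) := by exact_mod_cast h2.2.le
      push_cast at this
      exact this
    have e2 : (y.1 : ℝ) = (y.2 : ℝ) * ((y.1 / y.2 : ℕ) : ℝ) := by exact_mod_cast e1
    have hl0 : (0 : ℝ) ≤ ((y.1 / y.2 : ℕ) : ℝ) := Nat.cast_nonneg _
    refine ⟨hy2, e1, ?_, ?_, g1, g3⟩
    · rw [hα, div_le_iff₀ (by positivity)]
      calc (x0 : ℝ) ≤ y.1 := r1
        _ = (y.2 : ℝ) * ((y.1 / y.2 : ℕ) : ℝ) := e2
        _ ≤ (x0' + E') * ((y.1 / y.2 : ℕ) : ℝ) := mul_le_mul_of_nonneg_right r4 hl0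
        _ = _ := by ring
    · rw [hβ, le_div_iff₀ hx0'p]
      calc ((y.1 / y.2 : ℕ) : ℝ) * x0' ≤ ((y.1 / y.2 : ℕ) : ℝ) * y.2 := mul_le_mul_of_nonneg_left r3 hl0
        _ = y.1 := by rw [mul_comm, ← e2]
        _ ≤ _ := r2
  have h1 : (PP d k j k' j' L).card ≤ M * (Icc ⌈α⌉₊ ⌊β⌋₊).card := by
    refine Finset.card_le_mul_card_image_of_maps_to (f := fun y : ℕ × ℕ => y.1 / y.2) ?_ M ?_
    · intro y hy
      have := hmemP y hy
      rw [Finset.mem_Icc]
      exact ⟨Nat.ceil_le.2 this.2.2.1, Nat.le_floor this.2.2.2.1⟩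
    · intro l _
      rcases Finset.eq_empty_or_nonempty ((PP d k j k' j' L).filter (fun y : ℕ × ℕ => y.1 / y.2 = l)) with he | ⟨z, hz⟩
      · rw [he]; simp
      rw [Finset.mem_filter] at hz
      have hz1 := hmemP z hz.1
      have hl1 : 2 ^ k ≤ 2 ^ (k' + 1) * l := by
        calc 2 ^ k ≤ z.1 := hz1.2.2.2.2.1
          _ = z.2 * (z.1 / z.2) := hz1.2.1
          _ = z.2 * l := by rw [hz.2]
          _ ≤ 2 ^ (k' + 1) * l := Nat.mul_le_mul_right _ hz1.2.2.2.2.2.le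
      have hl0 : 0 < l := by
        rcases Nat.eq_zero_or_pos l with h | h
        · rw [h, mul_zero] at hl1
          have : 0 < 2 ^ k := by positivity
          omega
        · exact h
      have h2 : ((PP d k j k' j' L).filter (fun y : ℕ × ℕ => y.1 / y.2 = l)).card ≤
          ((cell d k j).filter (fun n => l ∣ n)).card := by
        refine Finset.card_le_card_of_injOn (fun y => y.1) ?_ ?_
        · intro y hy
          rw [Finset.mem_coe, Finset.mem_filter] at hy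
          have hy1 := mem_PP.1 hy.1
          have hy2 := hmemP y hy.1
          rw [Finset.mem_coe, Finset.mem_filter]
          refine ⟨hy1.1, ?_⟩
          rw [← hy.2]; exact Nat.div_dvd_of_dvd hy1.2.2.1
        · intro y hy y' hy' hyy
          rw [Finset.mem_coe, Finset.mem_filter] at hy hy'
          have hy2 := hmemP y hy.1
          have hy2' := hmemP y' hy'.1
          simp only at hyy
          refine Prod.ext hyy ?_
          have e1 : y.1 = y.2 * l := by conv_lhs => rw [hy2.2.1, hy.2]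
          have e2 : y'.1 = y'.2 * l := by conv_lhs => rw [hy2'.2.1, hy'.2]
          rw [e1, e2] at hyy
          exact Nat.eq_of_mul_eq_mul_right hl0 hyy
      refine h2.trans (Nat.le_floor ?_)
      rw [Pool.Agent.Helper88.KS.cell_eq]
      refine (Pool.Agent.Helper88.KS.card_mult_le _ _ _ hl0).trans ?_
      push_cast
      rw [← hE]
      have hl1r : (2 : ℝ) ^ k ≤ 2 ^ (k' + 1) * l := by exact_mod_cast hl1
      have hlr : (0 : ℝ) < l := by exact_mod_cast hl0
      have h3 : E / l ≤ E * 2 ^ (k' + 1) / 2 ^ k := by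
        rw [div_le_div_iff₀ hlr (by positivity)]
        calc E * 2 ^ k ≤ E * (2 ^ (k' + 1) * l) := mul_le_mul_of_nonneg_left hl1r hE0.le
          _ = _ := by ring
      linarith
  have h2 : ((Icc ⌈α⌉₊ ⌊β⌋₊).card : ℝ) ≤ β - α + 1 := by
    have hα0 : 0 ≤ α := by positivity
    have hβ0 : 0 ≤ β := by positivity
    have hαβ : α ≤ β := by
      rw [hα, hβ, div_le_div_iff₀ (by positivity) hx0'p]
      nlinarith
    rw [Nat.card_Icc]
    rcases le_or_gt ⌈α⌉₊ (⌊β⌋₊ + 1) with h | h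
    · rw [Nat.cast_sub h]
      push_cast
      have a1 := Nat.le_ceil α
      have a2 := Nat.floor_le hβ0
      linarith
    · have : ⌊β⌋₊ + 1 - ⌈α⌉₊ = 0 := by omega
      rw [this]
      push_cast
      linarith
  have h3 : β - α ≤ E / 2 ^ k' + 2 ^ (k + 1) * E' / (2 ^ k') ^ 2 := by
    have e1 : β - α = E / x0' + (x0 : ℝ) * E' / (x0' * (x0' + E')) := by
      rw [hα, hβ]
      field_simp
      ring
    rw [e1]
    refine add_le_add ?_ ?_
    · exact div_le_div_of_nonneg_left hE0.le (by positivity) hx0'r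
    · refine div_le_div₀ (by positivity) (mul_le_mul_of_nonneg_right hx0r hE'0.le) (by positivity) ?_
      rw [sq]
      refine mul_le_mul hx0'r (by linarith) (by positivity) (by positivity)
  calc ((PP d k j k' j' L).card : ℝ) ≤ (M : ℝ) * ((Icc ⌈α⌉₊ ⌊β⌋₊).card : ℝ) := by exact_mod_cast h1
    _ ≤ (E * 2 ^ (k' + 1) / 2 ^ k + 1) * (E / 2 ^ k' + 2 ^ (k + 1) * E' / (2 ^ k') ^ 2 + 1) := by
      refine mul_le_mul hMr (by linarith) (Nat.cast_nonneg _) (by positivity)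
    _ = _ := by ring

/-- the final count for one cell of block `k'` -/
theorem pairs_bound {d : ℝ} (hd : 0 < d) (hd1 : d ≤ 1 / 1000) {k j k' j' : ℕ} (hj : j < nc d k) (hj' : j' < nc d k')
    {u c : ℝ} (hu0 : 0 ≤ u) (hu : u ≤ 0.22) (hc0 : 0 < c) (hc : c ≤ 1 / 100) :
    (2 : ℝ) ^ (u * k') * ((PP d k j k' j' ((2 : ℝ) ^ ((u + c) * k'))).card : ℝ) ≤
      24 * (2 : ℝ) ^ ec d k * (2 : ℝ) ^ ((2 * d - c) * k') := by
  set E : ℝ := (2 : ℝ) ^ ec d k with hE
  have hE0 : 0 < E := by positivity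
  have hE1 := Pool.Agent.Helper88.KS.ec_real_le d (by linarith) k
  have hE2 := Pool.Agent.Helper88.KS.ec_real_ge d k
  have hE'1 := Pool.Agent.Helper88.KS.ec_real_le d (by linarith) k'
  rw [← hE] at hE1 hE2
  set r : ℝ := (k : ℝ) with hr
  set r' : ℝ := (k' : ℝ) with hr'
  have hr0 : 0 ≤ r := Nat.cast_nonneg k
  have hr'0 : 0 ≤ r' := Nat.cast_nonneg k'
  have p1 : (2 : ℝ) ^ k = (2 : ℝ) ^ r := (Real.rpow_natCast _ _).symm
  have p2 : (2 : ℝ) ^ k' = (2 : ℝ) ^ r' := (Real.rpow_natCast _ _).symm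
  rcases Finset.eq_empty_or_nonempty (PP d k j k' j' ((2 : ℝ) ^ ((u + c) * r'))) with he | ⟨z, hz⟩
  · rw [he, Finset.card_empty, Nat.cast_zero, mul_zero]
    positivity
  -- the exponents
  have hLe : (u + c) * r' ≤ r - r' + 1 := by
    have h1 := mem_PP.1 hz
    have g1 := cell_lt hd hj h1.1
    have g2 := cell_ge h1.2.1
    have h2 : ((z.1 / z.2 : ℕ) : ℝ) ≤ (z.1 : ℝ) / z.2 := Nat.cast_div_le
    have h3 : (z.1 : ℝ) / z.2 ≤ (2 : ℝ) ^ (r + 1) / (2 : ℝ) ^ r' := by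
      have a1 : (z.1 : ℝ) ≤ (2 : ℝ) ^ (r + 1) := by
        have : (z.1 : ℝ) ≤ ((2 ^ (k + 1) : ℕ) : ℝ) := by exact_mod_cast g1.le
        push_cast at this
        rwa [← Real.rpow_natCast, Nat.cast_add, Nat.cast_one] at this
      have a2 : (2 : ℝ) ^ r' ≤ z.2 := by
        rw [← p2]; exact_mod_cast g2
      exact div_le_div₀ (by positivity) a1 (by positivity) a2
    have h4 := (h1.2.2.2.trans h2).trans h3
    rw [← Real.rpow_sub (by norm_num), Real.rpow_le_rpow_left_iff (by norm_num)] at h4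
    linarith
  rcases le_or_gt (2 * r') r with hcase | hcase
  · -- candidates first
    have h1 := pairs_ii (d := d) (k := k) (j := j) (k' := k') (j' := j') ((2 : ℝ) ^ ((u + c) * r'))
    rw [← hE] at h1
    have hinv : 1 ≤ E * (2 : ℝ) ^ (1 - (1 / 2 - d) * r) := by
      calc (1 : ℝ) = (2 : ℝ) ^ ((1 / 2 - d) * r - 1) * (2 : ℝ) ^ (1 - (1 / 2 - d) * r) := by
            rw [← Real.rpow_add (by norm_num)]
            norm_num
        _ ≤ _ := mul_le_mul_of_nonneg_right hE2 (by positivity)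
    have h2 : E / 2 ^ k' + 1 ≤ E * ((2 : ℝ) ^ (-r') + (2 : ℝ) ^ (1 - (1 / 2 - d) * r)) := by
      rw [mul_add]
      refine add_le_add (le_of_eq ?_) hinv
      rw [p2, Real.rpow_neg (by norm_num)]
      rfl
    have h3 : (2 : ℝ) ^ (-r') + (2 : ℝ) ^ (1 - (1 / 2 - d) * r) ≤ 3 * (2 : ℝ) ^ (-r' + 2 * d * r') := by
      have a1 : (2 : ℝ) ^ (-r') ≤ (2 : ℝ) ^ (-r' + 2 * d * r') :=
        Real.rpow_le_rpow_of_exponent_le (by norm_num) (by nlinarith)
      have a2 : (2 : ℝ) ^ (1 - (1 / 2 - d) * r) ≤ 2 * (2 : ℝ) ^ (-r' + 2 * d * r') := by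
        rw [Real.rpow_sub (by norm_num), Real.rpow_one, div_eq_mul_inv, ← Real.rpow_neg (by norm_num)]
        refine mul_le_mul_of_nonneg_left ?_ (by norm_num)
        refine Real.rpow_le_rpow_of_exponent_le (by norm_num) ?_
        nlinarith
      linarith
    calc (2 : ℝ) ^ (u * r') * ((PP d k j k' j' ((2 : ℝ) ^ ((u + c) * r'))).card : ℝ)
        ≤ (2 : ℝ) ^ (u * r') * ((2 : ℝ) ^ ((1 / 2 - d) * r') * (E * (3 * (2 : ℝ) ^ (-r' + 2 * d * r')))) := by
          refine mul_le_mul_of_nonneg_left (h1.trans ?_) (by positivity)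
          refine mul_le_mul hE'1 ?_ (by positivity) (by positivity)
          exact h2.trans (mul_le_mul_of_nonneg_left h3 hE0.le)
      _ = 3 * E * ((2 : ℝ) ^ (u * r' + (1 / 2 - d) * r' + (-r' + 2 * d * r'))) := by
          have e0 : (2 : ℝ) ^ (u * r' + (1 / 2 - d) * r' + (-r' + 2 * d * r')) =
              (2 : ℝ) ^ (u * r') * (2 : ℝ) ^ ((1 / 2 - d) * r') * (2 : ℝ) ^ (-r' + 2 * d * r') := by
            rw [← Real.rpow_add (by norm_num), ← Real.rpow_add (by norm_num)]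
          rw [e0]
          ring
      _ ≤ 24 * E * (2 : ℝ) ^ ((2 * d - c) * r') := by
          have a1 : (2 : ℝ) ^ (u * r' + (1 / 2 - d) * r' + (-r' + 2 * d * r')) ≤ (2 : ℝ) ^ ((2 * d - c) * r') := by
            refine Real.rpow_le_rpow_of_exponent_le (by norm_num) ?_
            have : (u + 1 / 2 - 1 + c - d) * r' ≤ 0 := by
              have h5 : u + 1 / 2 - 1 + c - d ≤ 0 := by norm_num at hu; linarith
              nlinarith
            nlinarith
          have a2 : 0 < (2 : ℝ) ^ ((2 * d - c) * r') := by positivity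
          nlinarith
  · -- cofactors first
    have h1 := pairs_i hd hj hj' ((2 : ℝ) ^ ((u + c) * r'))
    rw [← hE] at h1
    have b1 : E / 2 ^ k' ≤ 1 := by
      rw [p2, div_le_one (by positivity)]
      refine hE1.trans (Real.rpow_le_rpow_of_exponent_le (by norm_num) ?_)
      nlinarith
    have b2 : (2 : ℝ) ^ (k + 1) * 2 ^ ec d k' / (2 ^ k') ^ 2 ≤ (2 : ℝ) ^ (r + 1 - 3 / 2 * r') := by
      have e1 : (2 : ℝ) ^ (k + 1) = (2 : ℝ) ^ (r + 1) := by
        rw [← Real.rpow_natCast]; push_cast; rfl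
      have e2 : ((2 : ℝ) ^ k') ^ 2 = (2 : ℝ) ^ (2 * r') := by
        rw [p2, ← Real.rpow_natCast, ← Real.rpow_mul (by norm_num)]
        congr 1
        push_cast
        ring
      rw [e1, e2, div_le_iff₀ (by positivity), ← Real.rpow_add (by norm_num)]
      calc (2 : ℝ) ^ (r + 1) * 2 ^ ec d k' ≤ (2 : ℝ) ^ (r + 1) * (2 : ℝ) ^ ((1 / 2 - d) * r') :=
            mul_le_mul_of_nonneg_left hE'1 (by positivity)
        _ = (2 : ℝ) ^ (r + 1 + (1 / 2 - d) * r') := (Real.rpow_add (by norm_num) _ _).symm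
        _ ≤ _ := Real.rpow_le_rpow_of_exponent_le (by norm_num) (by nlinarith)
    have hinv : 1 ≤ E * (2 : ℝ) ^ (1 - (1 / 2 - d) * r) := by
      calc (1 : ℝ) = (2 : ℝ) ^ ((1 / 2 - d) * r - 1) * (2 : ℝ) ^ (1 - (1 / 2 - d) * r) := by
            rw [← Real.rpow_add (by norm_num)]
            norm_num
        _ ≤ _ := mul_le_mul_of_nonneg_right hE2 (by positivity)
    have b3 : E * 2 ^ (k' + 1) / 2 ^ k + 1 ≤ 4 * E * (2 : ℝ) ^ (r' - r + 2 * d * r') := by
      have e1 : E * 2 ^ (k' + 1) / 2 ^ k = 2 * E * (2 : ℝ) ^ (r' - r) := by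
        rw [pow_succ, p1, p2, Real.rpow_sub (by norm_num)]
        ring
      have e2 : (2 : ℝ) ^ (r' - r) ≤ (2 : ℝ) ^ (r' - r + 2 * d * r') :=
        Real.rpow_le_rpow_of_exponent_le (by norm_num) (by nlinarith)
      have e3 : (2 : ℝ) ^ (1 - (1 / 2 - d) * r) ≤ 2 * (2 : ℝ) ^ (r' - r + 2 * d * r') := by
        rw [Real.rpow_sub (by norm_num), Real.rpow_one, div_eq_mul_inv, ← Real.rpow_neg (by norm_num)]
        refine mul_le_mul_of_nonneg_left ?_ (by norm_num)
        refine Real.rpow_le_rpow_of_exponent_le (by norm_num) ?_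
        nlinarith
      rw [e1]
      nlinarith
    calc (2 : ℝ) ^ (u * r') * ((PP d k j k' j' ((2 : ℝ) ^ ((u + c) * r'))).card : ℝ)
        ≤ (2 : ℝ) ^ (u * r') * ((2 + (2 : ℝ) ^ (r + 1 - 3 / 2 * r')) * (4 * E * (2 : ℝ) ^ (r' - r + 2 * d * r'))) := by
          refine mul_le_mul_of_nonneg_left (h1.trans ?_) (by positivity)
          refine mul_le_mul (by linarith) b3 (by positivity) (by positivity)
      _ = 8 * E * ((2 : ℝ) ^ (u * r' + (r' - r + 2 * d * r')) +
            (2 : ℝ) ^ (u * r' + (r - 3 / 2 * r') + (r' - r + 2 * d * r'))) := by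
          rw [Real.rpow_add (by norm_num) (u * r' + (r - 3 / 2 * r')), Real.rpow_add (by norm_num) (u * r'),
            Real.rpow_add (by norm_num) (u * r'),
            show r + 1 - 3 / 2 * r' = 1 + (r - 3 / 2 * r') by ring, Real.rpow_add (by norm_num) 1, Real.rpow_one]
          ring
      _ ≤ 8 * E * (2 * (2 : ℝ) ^ ((2 * d - c) * r') + (2 : ℝ) ^ ((2 * d - c) * r')) := by
          refine mul_le_mul_of_nonneg_left (add_le_add ?_ ?_) (by positivity)
          · calc (2 : ℝ) ^ (u * r' + (r' - r + 2 * d * r')) ≤ (2 : ℝ) ^ (1 + (2 * d - c) * r') :=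
                Real.rpow_le_rpow_of_exponent_le (by norm_num) (by nlinarith)
              _ = 2 * (2 : ℝ) ^ ((2 * d - c) * r') := by
                rw [Real.rpow_add (by norm_num), Real.rpow_one]
          · refine Real.rpow_le_rpow_of_exponent_le (by norm_num) ?_
            have h5 : u - 1 / 2 + c ≤ 0 := by norm_num at hu; linarith
            nlinarith
      _ = 24 * E * (2 : ℝ) ^ ((2 * d - c) * r') := by ring

end Pool.Agent.Helper18.KL
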